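import Pool.Agent.T6.H20.FV.Pts

/-!
Vojta's height inequality, stability and log general type of closed subvarieties.
-/

set_option autoImplicit false

open FF MvPolynomial Pool.Agent.W603.LV Pool.Agent.W603.PV Pool.Agent.W602.GT
open Pool.Agent.R869.Wd (cut PtL VojtaV Vojta charZero_ext)

namespace Pool.Agent.T6.H20.FV

variable {F : Type} [Field F] {n : ℕ} {ι κ : Type}

theorem canDeg_bound {k : Type} [Field k] [IsAlgClosed k] [CharZero k] [Algebra k F] [IsFF k F] :
    ∃ c : ℕ, ∀ (L : Type) [Field L] [Algebra k L] [Algebra F L] [IsScalarTower k F L]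
      [FiniteDimensional F L] (m : ℕ),
      max (canDeg k L + m) 0 ≤ canDeg k L + m + c * Module.finrank F L := by
  obtain ⟨t, ht⟩ := IsFF.exists_transcendental (k := k) (K := F)
  refine ⟨(2 * hgt k t).toNat, ?_⟩
  intro L _ _ _ _ _ m
  have : IsFF k L := isFF_of_finite (F := F)
  have h3 := canDeg_ge (k := k) (K := L) (t := algebraMap F L t)
    ((transcendental_algebraMap_iff (algebraMap F L).injective).2 ht)
  rw [hgt_algebraMap t] at h3
  have ht0 : 0 ≤ hgt k t := hgt_nonneg _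
  have h4 : (((2 * hgt k t).toNat : ℕ) : ℤ) = 2 * hgt k t := Int.toNat_of_nonneg (by omega)
  rw [h4]
  have h5 : (0 : ℤ) ≤ Module.finrank F L := Nat.cast_nonneg _
  refine max_le ?_ ?_
  · have : 0 ≤ 2 * hgt k t * (Module.finrank F L : ℤ) := by positivity
    linarith
  · have : (0 : ℤ) ≤ m := Nat.cast_nonneg _
    linarith

section

variable {k : Type} [Field k] [IsAlgClosed k] [CharZero k] [Algebra k F] [IsFF k F]
  [Finite ι] (U : Finset (Fin (n + 1))) (Fs : ι → MvPolynomial (Fin (n + 1)) F)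
  (hF : ∀ i, IsForm (Fs i)) (hC : ∀ i, HighPowers U (Fs i).support)
  (hnt : TS.NoTorusSurface (U : Set (Fin (n + 1)))
    fun i => map (algebraMap F (AlgebraicClosure F)) (Fs i))
  {Φ : κ → MvPolynomial (Fin (n + 1)) F} (hΦ : ∀ e, IsForm (Φ e))
  (hsub : Sub (U : Set (Fin (n + 1))) Φ Fs)

include hF hC hnt hΦ hsub

/-- all points which are not on orbits -/
theorem all_points : ∃ A B : ℕ, ∀ (L : Type) [Field L] [Algebra k L] [Algebra F L]
    [IsScalarTower k F L] [FiniteDimensional F L] (f : Fin (n + 1) → L),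
      PtL (U : Set (Fin (n + 1))) Φ L f → OnOrbit (U : Set (Fin (n + 1))) Φ L f ∨
        pht k f ≤ A * (canDeg k L + (cut k (U : Set (Fin (n + 1))) f).ncard) +
          B * Module.finrank F L := by
  obtain ⟨A, B, h⟩ := points (k := k) U Fs hF hC hnt hΦ hsub (Ideal.span (Set.range Φ))
    fun e => Ideal.subset_span ⟨e, rfl⟩
  obtain ⟨c, hc⟩ := canDeg_bound (k := k) (F := F)
  refine ⟨A, B + A * c, fun L _ _ _ _ _ f hf => ?_⟩
  rcases h L f hf.ne (fun j hj => hf.unit j hj) (by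
    rw [Ideal.span_le]
    rintro _ ⟨e, rfl⟩
    exact (form_mem_genI (hΦ e)).2 (hf.mem e)) with h1 | h1
  · exact Or.inl h1
  · right
    have h2 := hc L (cut k (U : Set (Fin (n + 1))) f).ncard
    have h3 := mul_le_mul_of_nonneg_left h2 (by positivity : (0 : ℤ) ≤ A)
    push_cast
    linarith

/-- **Stability.** -/
theorem vojtaV {K : Type} [Field K] [Algebra (AlgebraicClosure F) K] {w : ℕ}
    {y : Fin (n + 1) → K}
    (hy : SubVarU (U : Set (Fin (n + 1))) (fun e => map (algebraMap F (AlgebraicClosure F)) (Φ e))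
      K w y)
    (hact : ∀ b : Fin (n + 1) → ℤ, Acts (U : Set (Fin (n + 1))) (AlgebraicClosure F) y b →
      ∀ i i', y i ≠ 0 → y i' ≠ 0 → b i = b i') : ∃ A, VojtaV k F (U : Set (Fin (n + 1))) A y := by
  let A := AlgebraicClosure F
  letI : Algebra F K := ((algebraMap A K).comp (algebraMap F A)).toAlgebra
  haveI : IsScalarTower F A K := IsScalarTower.of_algebraMap_eq' rfl
  have hmem : ∀ G : MvPolynomial (Fin (n + 1)) F, IsForm G →
      (G ∈ genI F y ↔ val y (map (algebraMap F A) G) = 0) := by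
    intro G hG
    rw [form_mem_genI hG, Pool.Agent.R869.Wd.val_map]
    rfl
  obtain ⟨j0, hj0⟩ := Function.ne_iff.1 hy.ne
  obtain ⟨d, G, hGd, hG, B, C, h⟩ := sub_vojta (k := k) U Fs hF hC hnt hsub
    (p := genI F y) (genI_homog y) (fun e => (hmem _ (hΦ e)).2 (hy.mem e))
    (fun j hj h0 => hy.unit j hj (X_mem_genI.1 h0)) ⟨j0, fun h0 => hj0 (X_mem_genI.1 h0)⟩
    (fun b hb j l hj hl => hact b (TS.acts_of_hom fun G hG h0 v => by
      have h1 := stable_ext (A := A) hb G ((form_mem_genI hG).2 h0) v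
      rw [← wc_eq_comp, form_mem_genI (wc_form hG b v)] at h1
      exact h1) j l (fun h0 => hj (X_mem_genI.2 h0)) (fun h0 => hl (X_mem_genI.2 h0)))
  refine ⟨B, map (algebraMap F A) G, ⟨d, hGd.map _⟩, fun h0 => hG ((hmem G ⟨d, hGd⟩).2 h0), C,
    fun L _ _ _ _ _ f hf => ?_⟩
  obtain ⟨σ, hf1, hf2⟩ := hf
  refine h L f ?_ ?_ ?_
  · intro H hH
    rw [mem_genI]
    intro e
    have h1 := (hmem _ ⟨e, homogeneousComponent_isHomogeneous e H⟩).1 (genI_homog y H hH e)
    have h2 := hf1.1.2 _ ⟨e, (homogeneousComponent_isHomogeneous e H).map _⟩ h1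
    rw [Pool.Agent.R869.Wd.val_map, Pool.Agent.R869.Wd.val_ext] at h2
    exact (map_eq_zero _).1 h2
  · intro h0
    apply hf2
    rw [Pool.Agent.R869.Wd.val_map, Pool.Agent.R869.Wd.val_ext]
    unfold val
    rw [h0, map_zero]
  · intro j hj h0
    refine hf1.2 j hj ?_
    simp only [h0, map_zero]

end

/-- the inequality fails for all points if there are orbits -/
theorem no_orbit {k : Type} [Field k] [IsAlgClosed k] [CharZero k] [Algebra k F] [IsFF k F]
    {U : Set (Fin (n + 1))} {Φ : κ → MvPolynomial (Fin (n + 1)) F} {A : ℕ}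
    (h : Vojta k F U A (fun L _ _ f => PtL U Φ L f)) (L : Type) [Field L] [Algebra k L]
    [Algebra F L] [IsScalarTower k F L] [FiniteDimensional F L] (f : Fin (n + 1) → L)
    (hf : ∀ j ∈ U, f j ≠ 0) : ¬ OnOrbit U Φ L f := by
  rintro ⟨b, ⟨i, i', hi, hi', hne⟩, ho⟩
  obtain ⟨B, hB⟩ := h
  have hL : IsFF k L := isFF_of_finite (F := F)
  obtain ⟨t, ht⟩ := IsFF.exists_transcendental (k := k) (K := L)
  have ht0 : t ≠ 0 := by
    rintro rfl
    exact ht isAlgebraic_zero
  obtain ⟨z, hz⟩ := Pool.Agent.R869.Wd.orbit_heights (k := k) hi hi' hne ht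
  obtain ⟨m0, hm0⟩ := hz (A * (max (canDeg k L) 0 + z) + B * Module.finrank F L)
  obtain ⟨hc, hlt⟩ := hm0 m0 le_rfl
  have h1 := hB L (fun j => (t ^ m0) ^ b j * f j) (ho _ (pow_ne_zero _ ht0))
  have h10 : ((cut k U (fun j => (t ^ m0) ^ b j * f j)).ncard : ℤ) ≤ z := by
    exact_mod_cast hc U hf
  have h11 : (A : ℤ) * (canDeg k L + (cut k U (fun j => (t ^ m0) ^ b j * f j)).ncard) ≤
      A * (max (canDeg k L) 0 + z) :=
    mul_le_mul_of_nonneg_left (by
      have := le_max_left (canDeg k L) 0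
      linarith) (Nat.cast_nonneg _)
  linarith

end Pool.Agent.T6.H20.FV
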