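import Pool.Agent.T6.H20.FV.SpecLine
import Pool.Agent.T6.H20.FV.Comp

/-!
Vojta's height inequality for all points outside of the lines which meet the boundary in at most two
points.
-/

set_option autoImplicit false

open FF Filter MvPolynomial Pool.Agent.W603.LV Pool.Agent.W603.PV Pool.Agent.W602.GT
  Pool.Agent.W603.CZ
open Pool.Agent.R869.Wd (charZero_ext)

namespace Pool.Agent.T6.H20.FV

variable {F : Type} [Field F] {n : ℕ} {ι κ : Type}

/-- Let `X` be the closed subset `Φ = 0` of projective `n`-space over `F`, and `D` the union of the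
divisors `Q j = 0`, where `Q j` is a form of degree `q j`. Through the point `f` over `L` there is a
line in `X`, over the algebraic closure of `L`, which meets `D` in at most two points, one for `j` in
`T` and one for `j` not in `T`: for suitable coordinates `(s : t)` on the line, for which `f` is the
point `(1 : 0)`, the form `Q j` is `Q_j(f) (s + t) ^ q j` for `j` in `T` and `Q_j(f) s ^ q j` for the
other `j`. -/
def OnLine (Φ : ι → MvPolynomial (Fin (n + 1)) F) (Q : κ → MvPolynomial (Fin (n + 1)) F)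
    (q : κ → ℕ) (L : Type) [Field L] [Algebra F L] (f : Fin (n + 1) → L) : Prop :=
  ∃ (v : Fin (n + 1) → AlgebraicClosure L) (T : Set κ),
    (∃ i j, algebraMap L (AlgebraicClosure L) (f i) * v j -
      algebraMap L (AlgebraicClosure L) (f j) * v i ≠ 0) ∧
    ∀ s t : AlgebraicClosure L,
      (∀ e, aeval (fun l => s * algebraMap L (AlgebraicClosure L) (f l) + t * v l) (Φ e) = 0) ∧
      ∀ j, (j ∈ T → aeval (fun l => s * algebraMap L (AlgebraicClosure L) (f l) + t * v l) (Q j) =
          algebraMap L (AlgebraicClosure L) (aeval f (Q j)) * (s + t) ^ q j) ∧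
        (j ∉ T → aeval (fun l => s * algebraMap L (AlgebraicClosure L) (f l) + t * v l) (Q j) =
          algebraMap L (AlgebraicClosure L) (aeval f (Q j)) * s ^ q j)

/-- from an extension to the algebraic closure -/
theorem onLine_of_ext [CharZero F] {Φ : ι → MvPolynomial (Fin (n + 1)) F}
    {Q : κ → MvPolynomial (Fin (n + 1)) F} {q : κ → ℕ} {L : Type} [Field L] [Algebra F L]
    {f : Fin (n + 1) → L} {Ω : Type} [Field Ω] [Algebra F Ω] [Algebra L Ω] [IsScalarTower F L Ω]
    {v : Fin (n + 1) → Ω} {T : Set κ}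
    (hind : ∃ i j, algebraMap L Ω (f i) * v j - algebraMap L Ω (f j) * v i ≠ 0)
    (h : ∀ s t : Ω, (∀ e, aeval (fun l => s * algebraMap L Ω (f l) + t * v l) (Φ e) = 0) ∧
        ∀ j, (j ∈ T → aeval (fun l => s * algebraMap L Ω (f l) + t * v l) (Q j) =
            algebraMap L Ω (aeval f (Q j)) * (s + t) ^ q j) ∧
          (j ∉ T → aeval (fun l => s * algebraMap L Ω (f l) + t * v l) (Q j) =
            algebraMap L Ω (aeval f (Q j)) * s ^ q j)) : OnLine Φ Q q L f := by
  classical
  obtain ⟨i, j, hij⟩ := hind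
  let ψ : AlgebraicClosure L →ₐ[L] AlgebraicClosure Ω := IsAlgClosed.lift
  letI : Algebra (AlgebraicClosure L) (AlgebraicClosure Ω) := ψ.toRingHom.toAlgebra
  haveI hT1 : IsScalarTower L (AlgebraicClosure L) (AlgebraicClosure Ω) :=
    IsScalarTower.of_algebraMap_eq' ψ.comp_algebraMap.symm
  let AL := AlgebraicClosure L
  let e := algebraMap Ω (AlgebraicClosure Ω)
  let z : Fin (n + 1) → AlgebraicClosure Ω := fun l => e (v l)
  obtain ⟨z0, hz1, hz2⟩ := specialise (k := AL) z
    (C (algebraMap L AL (f i)) * X j - C (algebraMap L AL (f j)) * X i) (by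
    rw [map_sub, map_mul, map_mul, aeval_C, aeval_C, aeval_X, aeval_X,
      ← IsScalarTower.algebraMap_apply, ← IsScalarTower.algebraMap_apply,
      IsScalarTower.algebraMap_apply L Ω (AlgebraicClosure Ω),
      IsScalarTower.algebraMap_apply L Ω (AlgebraicClosure Ω)]
    change e _ * e _ - e _ * e _ ≠ 0
    rw [← map_mul, ← map_mul, ← map_sub]
    exact (map_ne_zero _).2 hij)
  have hij' : algebraMap L AL (f i) * z0 j - algebraMap L AL (f j) * z0 i ≠ 0 := by
    rw [map_sub, map_mul, map_mul, aeval_C, aeval_C, aeval_X, aeval_X] at hz1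
    exact hz1
  -- the polynomials in the direction
  let pol : F → F → MvPolynomial (Fin (n + 1)) F → MvPolynomial (Fin (n + 1)) AL := fun s t H =>
    aeval (fun l => C (algebraMap F AL s * algebraMap L AL (f l)) + C (algebraMap F AL t) * X l) H
  have hpol : ∀ (M : Type) [Field M] [Algebra AL M] [Algebra F M] [IsScalarTower F AL M]
      (w : Fin (n + 1) → M) (s t : F) (H : MvPolynomial (Fin (n + 1)) F),
      aeval w (pol s t H) = aeval (fun l => algebraMap F M s * algebraMap AL M
        (algebraMap L AL (f l)) + algebraMap F M t * w l) H := by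
    intro M _ _ _ _ w s t H
    simp only [pol]
    have h1 := aeval_comp ((aeval w : MvPolynomial (Fin (n + 1)) AL →ₐ[AL] M).restrictScalars F)
      (fun l => C (algebraMap F AL s * algebraMap L AL (f l)) + C (algebraMap F AL t) * X l) H
    have h2 : (aeval w : MvPolynomial (Fin (n + 1)) AL →ₐ[AL] M).restrictScalars F
        (aeval (fun l => C (algebraMap F AL s * algebraMap L AL (f l)) +
          C (algebraMap F AL t) * X l) H) = aeval w (aeval (fun l => C (algebraMap F AL s *
          algebraMap L AL (f l)) + C (algebraMap F AL t) * X l) H) := rfl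
    rw [← h2, h1]
    congr 2
    funext l
    change aeval w _ = _
    simp only [map_add, map_mul, aeval_C, aeval_X]
    rw [← IsScalarTower.algebraMap_apply F AL M, ← IsScalarTower.algebraMap_apply F AL M]
  haveI hT2 : IsScalarTower F AL (AlgebraicClosure Ω) := IsScalarTower.of_algebraMap_eq fun a => by
    rw [IsScalarTower.algebraMap_apply F L AL, ← IsScalarTower.algebraMap_apply L AL,
      IsScalarTower.algebraMap_apply F Ω (AlgebraicClosure Ω),
      IsScalarTower.algebraMap_apply F L Ω, ← IsScalarTower.algebraMap_apply L Ω]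
  have hz : ∀ (s t : F) (H : MvPolynomial (Fin (n + 1)) F), aeval z (pol s t H) =
      e (aeval (fun l => algebraMap F Ω s * algebraMap L Ω (f l) + algebraMap F Ω t * v l) H) := by
    intro s t H
    rw [hpol]
    have h1 := (aeval_algebraMap_apply (AlgebraicClosure Ω)
      (fun l => algebraMap F Ω s * algebraMap L Ω (f l) + algebraMap F Ω t * v l) H)
    refine Eq.trans ?_ h1
    congr 2
    funext l
    change _ = e _
    simp only [z]
    rw [map_add, map_mul, map_mul]
    change _ = algebraMap Ω (AlgebraicClosure Ω) (algebraMap F Ω s) *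
      algebraMap Ω (AlgebraicClosure Ω) (algebraMap L Ω (f l)) +
      algebraMap Ω (AlgebraicClosure Ω) (algebraMap F Ω t) * e (v l)
    rw [← IsScalarTower.algebraMap_apply, ← IsScalarTower.algebraMap_apply,
      ← IsScalarTower.algebraMap_apply, ← IsScalarTower.algebraMap_apply]
  have hval : ∀ (s t : F) (H : MvPolynomial (Fin (n + 1)) F) (a : L),
      aeval (fun l => algebraMap F Ω s * algebraMap L Ω (f l) + algebraMap F Ω t * v l) H =
        algebraMap L Ω a →
      aeval (fun l => algebraMap F AL s * algebraMap L AL (f l) + algebraMap F AL t * z0 l) H =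
        algebraMap L AL a := by
    intro s t H a ha
    have h1 := hz2 (pol s t H - C (algebraMap L AL a)) (by
      rw [map_sub, hz, ha, aeval_C, sub_eq_zero, ← IsScalarTower.algebraMap_apply L AL,
        IsScalarTower.algebraMap_apply L Ω (AlgebraicClosure Ω)])
    rw [map_sub, hpol, aeval_C, sub_eq_zero] at h1
    exact h1
  refine ⟨z0, T, ⟨i, j, hij'⟩, fun s t => ⟨fun a => ?_, fun j => ⟨fun hj => ?_, fun hj => ?_⟩⟩⟩
  · have h1 := line_ident (E := F) (F := F) (fun l => algebraMap L AL (f l)) z0 (Φ a) 0 0 1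
      (fun s t => ?_) s t
    · rwa [zero_mul] at h1
    · rw [zero_mul]
      have h2 := hval s t (Φ a) 0 (by rw [(h _ _).1 a, map_zero])
      rwa [map_zero] at h2
  · have h1 := line_ident (E := F) (F := F) (fun l => algebraMap L AL (f l)) z0 (Q j)
      (algebraMap L AL (aeval f (Q j))) 1 (q j) (fun s t => ?_) s t
    · rwa [one_mul] at h1
    · rw [hval s t (Q j) (aeval f (Q j) * (algebraMap F L s + algebraMap F L t) ^ q j) (by
        rw [((h _ _).2 j).1 hj, map_mul, map_pow, map_add, ← IsScalarTower.algebraMap_apply,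
          ← IsScalarTower.algebraMap_apply]), map_mul, map_pow, map_add,
        ← IsScalarTower.algebraMap_apply, ← IsScalarTower.algebraMap_apply, one_mul]
  · have h1 := line_ident (E := F) (F := F) (fun l => algebraMap L AL (f l)) z0 (Q j)
      (algebraMap L AL (aeval f (Q j))) 0 (q j) (fun s t => ?_) s t
    · rwa [zero_mul, add_zero] at h1
    · rw [hval s t (Q j) (aeval f (Q j) * (algebraMap F L s) ^ q j) (by
        rw [((h _ _).2 j).2 hj, map_mul, map_pow, ← IsScalarTower.algebraMap_apply]), map_mul,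
        map_pow, ← IsScalarTower.algebraMap_apply, zero_mul, add_zero]


/-- **All points.** -/
theorem line_points {k : Type} [Field k] [IsAlgClosed k] [CharZero k] [Algebra k F] [IsFF k F]
    [Finite κ] {ι' : Type} (Fs : ι' → MvPolynomial (Fin (n + 1)) F)
    (hF : ∀ i, ∃ s N : ℕ, 0 < N ∧ (s - 1) ^ 2 ≤ N ∧ Pool.Agent.W603.PV.IsPowSum (Fs i) s N)
    (Q : κ → MvPolynomial (Fin (n + 1)) F) (q : κ → ℕ)
    (hQ : ∀ j, ∃ r : ℕ, 0 < q j ∧ r ^ 2 ≤ q j ∧ Pool.Agent.W603.PV.IsPowSum (Q j) r (q j))
    (hpl : ¬ LS.HasPlane (fun i => map (algebraMap F (AlgebraicClosure F)) (Fs i)))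
    (Φ : ι → MvPolynomial (Fin (n + 1)) F) (hsub : Set.range Fs ⊆ Set.range Φ)
    (I : Ideal (MvPolynomial (Fin (n + 1)) F)) (hI : ∀ e, Φ e ∈ I) :
    ∃ A B : ℕ, ∀ (L : Type) [Field L] [Algebra k L] [Algebra F L] [IsScalarTower k F L]
      [FiniteDimensional F L] (f : Fin (n + 1) → L), f ≠ 0 → (∀ j, aeval f (Q j) ≠ 0) →
        I ≤ genI F f → OnLine Φ Q q L f ∨
        pht k f ≤ A * max (canDeg k L + (meetsAny (k := k) Q q f).ncard) 0 +
          B * Module.finrank F L := by
  haveI : CharZero F := charZero_ext (k := k)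
  have hQhom : ∀ j, (Q j).IsHomogeneous (q j) := by
    intro j
    obtain ⟨r, _, _, c, l, _, h⟩ := hQ j
    rw [h]
    exact hom_powW _ _
  induction I using WellFoundedGT.induction with
  | ind I ih =>
  -- a larger ideal with all the points
  have key : ∀ G : MvPolynomial (Fin (n + 1)) F, G ∉ I →
      ∃ A B : ℕ, ∀ (L : Type) [Field L] [Algebra k L] [Algebra F L] [IsScalarTower k F L]
        [FiniteDimensional F L] (f : Fin (n + 1) → L), f ≠ 0 → (∀ j, aeval f (Q j) ≠ 0) →
        I ≤ genI F f → G ∈ genI F f → OnLine Φ Q q L f ∨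
        pht k f ≤ A * max (canDeg k L + (meetsAny (k := k) Q q f).ncard) 0 +
          B * Module.finrank F L := by
    intro G hG
    obtain ⟨A, B, h⟩ := ih _ (lt_sup hG) fun e => Ideal.mem_sup_left (hI e)
    exact ⟨A, B, fun L _ _ _ _ _ f hf hfU hfI hfG => h L f hf hfU (genI_sup hfI hfG)⟩
  by_cases hhom : IsHomog I
  swap
  · unfold IsHomog at hhom
    push Not at hhom
    obtain ⟨H, hH, d, hHd⟩ := hhom
    obtain ⟨A, B, h⟩ := key _ hHd
    exact ⟨A, B, fun L _ _ _ _ _ f hf hfU hfI => h L f hf hfU hfI (genI_homog f H (hfI hH) d)⟩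
  by_cases hprime : I.IsPrime
  swap
  · rw [Ideal.isPrime_iff] at hprime
    by_cases htop : I = ⊤
    · refine ⟨0, 0, fun L _ _ _ _ _ f hf hfU hfI => ?_⟩
      exact absurd (hfI (htop ▸ Submodule.mem_top : (1 : MvPolynomial (Fin (n + 1)) F) ∈ I))
        ((Ideal.ne_top_iff_one _).1 (genI_prime f).ne_top)
    · push Not at hprime
      obtain ⟨a, b, hab, ha, hb⟩ := hprime htop
      obtain ⟨A, B, h⟩ := key _ ha
      obtain ⟨A', B', h'⟩ := key _ hb
      refine ⟨max A A', max B B', fun L _ _ _ _ _ f hf hfU hfI => ?_⟩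
      rcases (genI_prime f).mem_or_mem (hfI hab) with h1 | h1
      · rcases h L f hf hfU hfI h1 with h2 | h2
        · exact Or.inl h2
        · exact Or.inr (add_bound h2 (le_max_right _ _) (Nat.cast_nonneg _) (le_max_left _ _)
            (le_max_left _ _))
      · rcases h' L f hf hfU hfI h1 with h2 | h2
        · exact Or.inl h2
        · exact Or.inr (add_bound h2 (le_max_right _ _) (Nat.cast_nonneg _) (le_max_right _ _)
            (le_max_right _ _))
  by_cases hU : ∃ j, Q j ∈ I
  · obtain ⟨j, hjI⟩ := hU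
    exact ⟨0, 0, fun L _ _ _ _ _ f hf hfU hfI => absurd
      ((form_mem_genI ⟨q j, hQhom j⟩).1 (hfI hjI)) (hfU j)⟩
  push Not at hU
  by_cases hx : ∃ j, X j ∉ I
  swap
  · push Not at hx
    exact ⟨0, 0, fun L _ _ _ _ _ f hf hfU hfI =>
      absurd (funext fun j => X_mem_genI.1 (hfI (hx j))) hf⟩
  have hFI : ∀ i, Fs i ∈ I := by
    intro i
    obtain ⟨e, he⟩ := hsub ⟨i, rfl⟩
    rw [← he]
    exact hI e
  have hpt : ∀ (L : Type) [Field L] [Algebra F L] (f : Fin (n + 1) → L), I ≤ genI F f →
      ∀ H ∈ I, aeval f H = 0 := by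
    intro L _ _ f hf H hH
    rw [← sum_homogeneousComponent H, map_sum]
    exact Finset.sum_eq_zero fun d _ => mem_genI.1 (hf hH) d
  by_cases hst : HasPuncturedLine I Q q
  · refine ⟨0, 0, fun L _ _ _ _ _ f hf hfU hfI => Or.inl ?_⟩
    obtain ⟨Ω, _, _, _, _, v, T, hind, h⟩ := line_at_point hhom hQhom
      (fun j => (hQ j).choose_spec.1) hst f (Function.ne_iff.1 hf) (hpt L f hfI) hfU
    exact onLine_of_ext hind fun s t => ⟨fun e => (h s t).1 _ (hI e), (h s t).2⟩
  · obtain ⟨d, G, hGd, hG, -, A, B, h⟩ := sub_multi (k := k) Fs hF Q q hQ I hhom hFI hpl hx hU hst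
    obtain ⟨A', B', h'⟩ := key _ hG
    refine ⟨max A A', max B B', fun L _ _ _ _ _ f hf hfU hfI => ?_⟩
    by_cases hfG : aeval f G = 0
    · rcases h' L f hf hfU hfI ((form_mem_genI ⟨d, hGd⟩).2 hfG) with h2 | h2
      · exact Or.inl h2
      · exact Or.inr (add_bound h2 (le_max_right _ _) (Nat.cast_nonneg _) (le_max_right _ _)
            (le_max_right _ _))
    · right
      have h3 := h L f (hpt L f hfI) hfG
      have h4 : (A : ℤ) * (canDeg k L + (meetsAny (k := k) Q q f).ncard) ≤
          A * max (canDeg k L + (meetsAny (k := k) Q q f).ncard) 0 :=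
        mul_le_mul_of_nonneg_left (le_max_left _ _) (Nat.cast_nonneg _)
      exact add_bound (h3.trans (by linarith)) (le_max_right _ _) (Nat.cast_nonneg _)
        (le_max_left _ _) (le_max_left _ _)

/-- A line through a point is a line through the generic point of a closed subvariety. -/
theorem generic_line {Φ : ι → MvPolynomial (Fin (n + 1)) F} (hΦ : ∀ e, IsForm (Φ e))
    {Q : κ → MvPolynomial (Fin (n + 1)) F} {q : κ → ℕ} (hQhom : ∀ j, (Q j).IsHomogeneous (q j))
    {L : Type} [Field L] [Algebra F L] {f : Fin (n + 1) → L} (hfQ : ∀ j, aeval f (Q j) ≠ 0)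
    (h : OnLine Φ Q q L f) :
    ∃ p : Ideal (MvPolynomial (Fin (n + 1)) F), p.IsPrime ∧ (∀ e, Φ e ∈ p) ∧ (∃ j, X j ∉ p) ∧
      (∀ j, Q j ∉ p) ∧ HasPuncturedLine p Q q := by
  classical
  obtain ⟨v, T, ⟨i, j, hij⟩, hl⟩ := h
  let E := AlgebraicClosure L
  let g : Fin (n + 1) → E := fun l => algebraMap L E (f l)
  have hlT : ∀ j ∈ T, ∀ s t : E, aeval (fun l => s * g l + t * v l) (Q j) =
      algebraMap L E (aeval f (Q j)) * (s + t) ^ q j := fun j hj s t => ((hl s t).2 j).1 hj
  have hlT' : ∀ j, j ∉ T → ∀ s t : E, aeval (fun l => s * g l + t * v l) (Q j) =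
      algebraMap L E (aeval f (Q j)) * s ^ q j := fun j hj s t => ((hl s t).2 j).2 hj
  have hlΦ : ∀ a, ∀ s t : E, aeval (fun l => s * g l + t * v l) (Φ a) = 0 :=
    fun a s t => (hl s t).1 a
  let R := MvPolynomial (Fin 2) E
  let M := FractionRing R
  have hinj : Function.Injective (algebraMap R M) := IsFractionRing.injective R M
  let φ : MvPolynomial (Fin (n + 1)) F →ₐ[F] R := aeval fun l => C (g l) * X 0 + C (v l) * X 1
  set σ : M := algebraMap R M (X 0) with hσ
  set τ : M := algebraMap R M (X 1) with hτ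
  have hσ0 : σ ≠ 0 := by
    rw [hσ, Ne, map_eq_zero_iff _ hinj]
    exact X_ne_zero 0
  have hστ : σ + τ ≠ 0 := by
    rw [hσ, hτ, ← map_add, Ne, map_eq_zero_iff _ hinj]
    intro h0
    have h1 := congrArg (eval ![(1 : E), 0]) h0
    simp at h1
  let G : Fin (n + 1) → M := fun l => algebraMap E M (g l)
  let V : Fin (n + 1) → M := fun l => algebraMap E M (v l)
  have hcomb : ∀ (a b : M) (H : MvPolynomial (Fin (n + 1)) F),
      aeval (fun l => a * G l + b * V l) H = aeval ![a, b] (φ H) := by
    intro a b H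
    have h1 := aeval_comp ((aeval ![a, b] : R →ₐ[E] M).restrictScalars F)
      (fun l => C (g l) * X 0 + C (v l) * X 1) H
    have h2 : (aeval ![a, b] : R →ₐ[E] M).restrictScalars F (aeval (fun l => C (g l) * X 0 +
        C (v l) * X 1) H) = aeval ![a, b] (φ H) := rfl
    rw [← h2, h1]
    congr 2
    funext l
    change _ = aeval ![a, b] _
    simp only [map_add, map_mul, aeval_C, aeval_X, Matrix.cons_val_zero, Matrix.cons_val_one]
    simp only [G, V]
    ring
  have hvec : (![σ, τ] : Fin 2 → M) = fun i => algebraMap R M (X i) := by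
    funext i
    fin_cases i <;> rfl
  have hφ : ∀ H, aeval (fun l => σ * G l + τ * V l) H = algebraMap R M (φ H) := by
    intro H
    rw [hcomb, hvec]
    have h1 := aeval_algebraMap_apply M (X : Fin 2 → R) (φ H)
    rw [aeval_X_left_apply] at h1
    exact h1
  set y : Fin (n + 1) → M := fun l => σ * G l + τ * V l with hy
  have hzero : ∀ H ∈ genI F y, ∀ a b : M, aeval (fun l => a * G l + b * V l) H = 0 := by
    intro H hH a b
    rw [← sum_homogeneousComponent H, map_sum]
    refine Finset.sum_eq_zero fun d _ => ?_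
    have h1 := mem_genI.1 hH d
    rw [hy, hφ, map_eq_zero_iff _ hinj] at h1
    rw [hcomb, h1, map_zero]
  have hE : ∀ (s t : E) (H : MvPolynomial (Fin (n + 1)) F),
      aeval (fun l => algebraMap E M s * G l + algebraMap E M t * V l) H =
        algebraMap E M (aeval (fun l => s * g l + t * v l) H) := by
    intro s t H
    have h1 := aeval_algebraMap_apply M (fun l => s * g l + t * v l) H
    rw [← h1]
    congr 2
    funext l
    simp only [Function.comp_apply, map_add, map_mul]
    rfl
  have hQT : ∀ j ∈ T, ∀ a b : M, aeval (fun l => a * G l + b * V l) (Q j) =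
      algebraMap E M (algebraMap L E (aeval f (Q j))) * (a + b) ^ q j := by
    intro j hj a b
    have h1 := line_ident (E := E) (F := F) G V (Q j)
      (algebraMap E M (algebraMap L E (aeval f (Q j)))) 1 (q j) (fun s t => ?_) a b
    · rwa [one_mul] at h1
    · rw [hE, hlT j hj, map_mul, map_pow, map_add, one_mul]
  have hQT' : ∀ j, j ∉ T → ∀ a b : M, aeval (fun l => a * G l + b * V l) (Q j) =
      algebraMap E M (algebraMap L E (aeval f (Q j))) * a ^ q j := by
    intro j hj a b
    have h1 := line_ident (E := E) (F := F) G V (Q j)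
      (algebraMap E M (algebraMap L E (aeval f (Q j)))) 0 (q j) (fun s t => ?_) a b
    · rwa [zero_mul, add_zero] at h1
    · rw [hE, hlT' j hj, map_mul, map_pow, zero_mul, add_zero]
  have hc : ∀ j, algebraMap E M (algebraMap L E (aeval f (Q j))) ≠ 0 := fun j =>
    (map_ne_zero _).2 ((map_ne_zero _).2 (hfQ j))
  have hyQ : ∀ j, aeval y (Q j) ≠ 0 := by
    intro j
    by_cases hj : j ∈ T
    · rw [hy, hQT j hj]
      exact mul_ne_zero (hc j) (pow_ne_zero _ hστ)
    · rw [hy, hQT' j hj]
      exact mul_ne_zero (hc j) (pow_ne_zero _ hσ0)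
  have hGV : G i * V j - G j * V i ≠ 0 := by
    simp only [G, V]
    rw [← map_mul, ← map_mul, ← map_sub]
    exact (map_ne_zero _).2 hij
  have hind : y i * ((σ + τ) * V j) - y j * ((σ + τ) * V i) ≠ 0 := by
    have h1 : y i * ((σ + τ) * V j) - y j * ((σ + τ) * V i) =
        σ * (σ + τ) * (G i * V j - G j * V i) := by
      simp only [hy]
      ring
    rw [h1]
    exact mul_ne_zero (mul_ne_zero hσ0 hστ) hGV
  refine ⟨genI F y, genI_prime y, fun a => ?_, ?_, fun j => ?_, M, inferInstance, inferInstance, y,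
    fun l => (σ + τ) * V l, T, ?_, ?_, ⟨i, j, hind⟩, fun s t => ?_⟩
  · rw [form_mem_genI (hΦ a), hy, hφ, map_eq_zero_iff _ hinj]
    apply MvPolynomial.funext
    intro x
    have h1 : eval x (φ (Φ a)) = aeval (fun l => x 0 * g l + x 1 * v l) (Φ a) := by
      have h1 := aeval_comp ((aeval x : R →ₐ[E] E).restrictScalars F)
        (fun l => C (g l) * X 0 + C (v l) * X 1) (Φ a)
      have h2 : (aeval x : R →ₐ[E] E).restrictScalars F (aeval (fun l => C (g l) * X 0 +
          C (v l) * X 1) (Φ a)) = eval x (φ (Φ a)) := rfl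
      rw [← h2, h1]
      congr 2
      funext l
      change aeval x _ = _
      simp only [map_add, map_mul, aeval_C, aeval_X]
      change g l * x 0 + v l * x 1 = _
      ring
    rw [h1, hlΦ, map_zero]
  · by_contra hcon
    push Not at hcon
    apply hind
    rw [X_mem_genI.1 (hcon i), X_mem_genI.1 (hcon j)]
    ring
  · rw [form_mem_genI ⟨q j, hQhom j⟩]
    exact hyQ j
  · intro H hH
    rw [← sum_homogeneousComponent H, map_sum]
    exact Finset.sum_eq_zero fun d _ => mem_genI.1 hH d
  · intro d H hHd hH h0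
    exact hH ((form_mem_genI ⟨d, hHd⟩).2 h0)
  · have h1 : (fun l => s * y l + t * ((σ + τ) * V l)) =
        fun l => (s * σ) * G l + (s * τ + t * (σ + τ)) * V l := by
      funext l
      simp only [hy]
      ring
    rw [h1]
    refine ⟨fun H hH => hzero H hH _ _, fun j => ⟨fun hj => ?_, fun hj => ?_⟩⟩
    · rw [hQT j hj, hy, hQT j hj, mul_assoc, ← mul_pow]
      congr 2
      ring
    · rw [hQT' j hj, hy, hQT' j hj, mul_assoc, ← mul_pow]
      congr 2
      ring

end Pool.Agent.T6.H20.FV
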