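import Pool.Agent.T6.H20.FV.Multi
import Pool.Agent.R869.NCpt

/-!
Vojta's height inequality fails if there are lines with at most two points on the boundary.
-/

set_option autoImplicit false

open FF Filter MvPolynomial Pool.Agent.W603.LV Pool.Agent.W603.PV Pool.Agent.W602.GT
  Pool.Agent.W603.CZ
open Pool.Agent.W603.CX (hgt_le_pht)
open Pool.Agent.W603.CY (hgt_mul_le hgt_add_le)

namespace Pool.Agent.T6.H20.FV

variable {F : Type} [Field F] {n : ℕ}

/-- the value at a point of a line, as a form in the coordinates of two points -/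
noncomputable def onL (G : MvPolynomial (Fin (n + 1)) F) (t : F) :
    MvPolynomial (Fin (n + 1) ⊕ Fin (n + 1)) F :=
  aeval (fun l => X (Sum.inl l) + C t * X (Sum.inr l)) G

theorem eval_onL {M : Type} [Field M] [Algebra F M] (a b : Fin (n + 1) → M)
    (G : MvPolynomial (Fin (n + 1)) F) (t : F) :
    aeval (Sum.elim a b) (onL G t) = aeval (fun l => a l + algebraMap F M t * b l) G := by
  unfold onL
  have h : ((aeval (Sum.elim a b) : MvPolynomial _ F →ₐ[F] M).comp
      (aeval (fun l => X (Sum.inl l) + C t * X (Sum.inr l)) :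
        MvPolynomial (Fin (n + 1)) F →ₐ[F] _)) = aeval (fun l => a l + algebraMap F M t * b l) := by
    apply MvPolynomial.algHom_ext
    intro i
    simp only [AlgHom.comp_apply, aeval_X, map_add, map_mul, Sum.elim_inl, Sum.elim_inr]
    rw [← MvPolynomial.algebraMap_eq, AlgHom.commutes]
  exact congrArg (fun f => f G) (congrArg DFunLike.coe h)

/-- **Specialisation** of the punctured line to a finite extension. -/
theorem line_over_alg [CharZero F] {κ : Type} [Finite κ]
    {p : Ideal (MvPolynomial (Fin (n + 1)) F)}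
    {Q : κ → MvPolynomial (Fin (n + 1)) F} {q : κ → ℕ} (hQhom : ∀ j, (Q j).IsHomogeneous (q j))
    (hQp : ∀ j, Q j ∉ p) (h : HasPuncturedLine p Q q) {G : MvPolynomial (Fin (n + 1)) F} {d : ℕ}
    (hG : G.IsHomogeneous d) (hGp : G ∉ p) :
    ∃ (L : IntermediateField F (AlgebraicClosure F)) (_ : FiniteDimensional F L)
      (y v : Fin (n + 1) → L) (T : Set κ) (i j : Fin (n + 1)), y i * v j - y j * v i ≠ 0 ∧
      aeval y G ≠ 0 ∧ (∀ j, aeval y (Q j) ≠ 0) ∧
      (∀ H ∈ p, ∀ t : L, aeval (fun l => y l + t * v l) H = 0) ∧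
      (∀ j ∈ T, ∀ t : L, aeval (fun l => y l + t * v l) (Q j) = aeval y (Q j) * (1 + t) ^ q j) ∧
      ∀ j, j ∉ T → ∀ t : L, aeval (fun l => y l + t * v l) (Q j) = aeval y (Q j) := by
  classical
  have := Fintype.ofFinite κ
  obtain ⟨K, _, _, y, v, T, hy0, hy1, ⟨i, j, hij⟩, hl⟩ := h
  let ψ : AlgebraicClosure F →ₐ[F] AlgebraicClosure K := IsAlgClosed.lift
  letI : Algebra (AlgebraicClosure F) (AlgebraicClosure K) := ψ.toRingHom.toAlgebra
  haveI : IsScalarTower F (AlgebraicClosure F) (AlgebraicClosure K) :=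
    IsScalarTower.of_algebraMap_eq' ψ.comp_algebraMap.symm
  let e := algebraMap K (AlgebraicClosure K)
  let z : Fin (n + 1) ⊕ Fin (n + 1) → AlgebraicClosure K := Sum.elim (fun l => e (y l))
    (fun l => e (v l))
  have hz : ∀ P : MvPolynomial (Fin (n + 1) ⊕ Fin (n + 1)) F,
      aeval z (map (algebraMap F (AlgebraicClosure F)) P) = e (aeval (Sum.elim y v) P) := by
    intro P
    rw [aeval_map_algebraMap]
    have h1 : z = fun s => e (Sum.elim y v s) := by
      funext s
      rcases s with s | s <;> rfl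
    rw [h1]
    exact aeval_algebraMap_apply (AlgebraicClosure K) (Sum.elim y v) P
  let P0 : MvPolynomial (Fin (n + 1) ⊕ Fin (n + 1)) F := onL G 0 * (∏ j, onL (Q j) 0) *
    (X (Sum.inl i) * X (Sum.inr j) - X (Sum.inl j) * X (Sum.inr i))
  have h00 : ∀ (M : Type) [Field M] [Algebra F M] (a b : Fin (n + 1) → M)
      (H : MvPolynomial (Fin (n + 1)) F), aeval (Sum.elim a b) (onL H 0) = aeval a H := by
    intro M _ _ a b H
    rw [eval_onL]
    congr 2
    funext l
    rw [map_zero, zero_mul, add_zero]
  have hP0 : aeval (Sum.elim y v) P0 ≠ 0 := by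
    simp only [P0, map_mul, map_prod, map_sub, aeval_X, Sum.elim_inl, Sum.elim_inr, h00]
    refine mul_ne_zero (mul_ne_zero (hy1 d G hG hGp) ?_) hij
    exact Finset.prod_ne_zero_iff.2 fun j _ => hy1 _ _ (hQhom j) (hQp j)
  obtain ⟨z0, hz1, hz2⟩ := specialise z (map (algebraMap F (AlgebraicClosure F)) P0) (by
    rw [hz]
    exact (_root_.map_ne_zero _).2 hP0)
  rw [aeval_map_algebraMap] at hz1
  have hz2' : ∀ P : MvPolynomial (Fin (n + 1) ⊕ Fin (n + 1)) F, aeval (Sum.elim y v) P = 0 →
      aeval z0 P = 0 := by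
    intro P hP
    have h1 := hz2 (map (algebraMap F (AlgebraicClosure F)) P) (by rw [hz, hP, map_zero])
    rwa [aeval_map_algebraMap] at h1
  let L : IntermediateField F (AlgebraicClosure F) := IntermediateField.adjoin F (Set.range z0)
  have hfin : FiniteDimensional F L := IntermediateField.finiteDimensional_adjoin fun y _ =>
    Algebra.IsIntegral.isIntegral y
  have hmem : ∀ s, z0 s ∈ L := fun s => IntermediateField.subset_adjoin F _ ⟨s, rfl⟩
  let y' : Fin (n + 1) → L := fun l => ⟨z0 (Sum.inl l), hmem _⟩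
  let v' : Fin (n + 1) → L := fun l => ⟨z0 (Sum.inr l), hmem _⟩
  have hLz : ∀ P : MvPolynomial (Fin (n + 1) ⊕ Fin (n + 1)) F,
      aeval z0 P = L.val (aeval (Sum.elim y' v') P) := by
    intro P
    rw [MvPolynomial.comp_aeval_apply]
    congr 2
    funext s
    rcases s with s | s <;> rfl
  have hnz : aeval (Sum.elim y' v') P0 ≠ 0 := by
    intro h0
    apply hz1
    rw [hLz, h0, map_zero]
  have hzero : ∀ P : MvPolynomial (Fin (n + 1) ⊕ Fin (n + 1)) F, aeval (Sum.elim y v) P = 0 →
      aeval (Sum.elim y' v') P = 0 := by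
    intro P hP
    have h1 := hz2' P hP
    rw [hLz] at h1
    exact (map_eq_zero _).1 h1
  simp only [P0, map_mul, map_prod, map_sub, aeval_X, Sum.elim_inl, Sum.elim_inr, h00] at hnz
  have hij' := right_ne_zero_of_mul hnz
  have hG' := left_ne_zero_of_mul (left_ne_zero_of_mul hnz)
  have hQ' : ∀ j, aeval y' (Q j) ≠ 0 := fun j =>
    Finset.prod_ne_zero_iff.1 (right_ne_zero_of_mul (left_ne_zero_of_mul hnz)) j
      (Finset.mem_univ j)
  have hinf : Infinite F := inferInstance
  -- an identity on the line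
  have key : ∀ (H : MvPolynomial (Fin (n + 1)) F) (R : Polynomial L) ,
      (∀ t : F, aeval (fun l => y' l + algebraMap F L t * v' l) H = R.eval (algebraMap F L t)) →
      ∀ t : L, aeval (fun l => y' l + t * v' l) H = R.eval t := by
    intro H R hR t
    obtain ⟨P, hP⟩ := LS.exists_poly (k := F) y' v' H
    have h1 : ∀ t : L, P.eval t = aeval (fun l => y' l + t * v' l) H := by
      intro t
      have h2 := hP L t
      rw [Polynomial.coe_aeval_eq_eval] at h2
      rw [h2]
      rfl
    have h3 : P = R := by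
      apply Polynomial.eq_of_infinite_eval_eq
      refine Set.Infinite.mono (s := Set.range (algebraMap F L)) ?_
        (Set.infinite_range_of_injective (algebraMap F L).injective)
      rintro _ ⟨s, rfl⟩
      change P.eval _ = R.eval _
      rw [h1, hR s]
    rw [← h1, h3]
  refine ⟨L, hfin, y', v', T, i, j, hij', hG', hQ', ?_, ?_, ?_⟩
  · intro H hH t
    rw [key H 0 (fun s => ?_) t, Polynomial.eval_zero]
    rw [Polynomial.eval_zero, ← eval_onL]
    apply hzero
    rw [eval_onL]
    have h1 := (hl 1 (algebraMap F K s)).1 H hH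
    simpa only [one_mul] using h1
  · intro j hj t
    rw [key (Q j) (Polynomial.C (aeval y' (Q j)) * (1 + Polynomial.X) ^ q j) (fun s => ?_) t]
    · rw [Polynomial.eval_mul, Polynomial.eval_C, Polynomial.eval_pow, Polynomial.eval_add,
        Polynomial.eval_one, Polynomial.eval_X]
    · have h2 : aeval (Sum.elim y' v') (onL (Q j) s - onL (Q j) 0 * C ((1 + s) ^ q j)) = 0 := by
        apply hzero
        rw [map_sub, map_mul, aeval_C, h00, eval_onL]
        have h1 := ((hl 1 (algebraMap F K s)).2 j).1 hj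
        simp only [one_mul] at h1
        rw [h1, map_pow, map_add, map_one, sub_self]
      rw [map_sub, map_mul, aeval_C, h00, eval_onL, sub_eq_zero] at h2
      rw [h2, Polynomial.eval_mul, Polynomial.eval_C, Polynomial.eval_pow, Polynomial.eval_add,
        Polynomial.eval_one, Polynomial.eval_X, map_pow, map_add, map_one]
  · intro j hj t
    rw [key (Q j) (Polynomial.C (aeval y' (Q j))) (fun s => ?_) t]
    · rw [Polynomial.eval_C]
    · have h2 : aeval (Sum.elim y' v') (onL (Q j) s - onL (Q j) 0) = 0 := by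
        apply hzero
        rw [map_sub, h00, eval_onL]
        have h1 := ((hl 1 (algebraMap F K s)).2 j).2 hj
        simp only [one_mul, one_pow, mul_one] at h1
        rw [h1, sub_self]
      rw [map_sub, h00, eval_onL, sub_eq_zero] at h2
      rw [h2, Polynomial.eval_C]

section heights

variable {k L : Type} [Field k] [Field L] [Algebra k L] [IsAlgClosed k] [CharZero k] [IsFF k L]

/-- the heights of the points of a line -/
theorem line_heights (y v : Fin (n + 1) → L) {i j : Fin (n + 1)}
    (hij : y i * v j - y j * v i ≠ 0) : ∃ A : ℤ, ∀ c : L, y i + c * v i ≠ 0 → y j + c * v j ≠ 0 →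
      hgt k c ≤ 2 * pht k (fun l => y l + c * v l) + A := by
  refine ⟨hgt k (y i) + hgt k (y j) + hgt k (v i) + hgt k (v j), fun c hi hj => ?_⟩
  set r := (y i + c * v i) / (y j + c * v j) with hr
  have h1 : hgt k r ≤ pht k (fun l => y l + c * v l) :=
    hgt_le_pht (k := k) (fun l => y l + c * v l) (j := i) (l := j) hi hj
  have hne : v i - r * v j ≠ 0 := by
    intro h0
    apply hij
    rw [hr] at h0
    field_simp at h0
    linear_combination -h0
  have hc : c = (r * y j - y i) * (v i - r * v j)⁻¹ := by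
    rw [eq_mul_inv_iff_mul_eq₀ hne, hr]
    field_simp
    ring
  have h2 : hgt k c ≤ hgt k (r * y j - y i) + hgt k (v i - r * v j) := by
    have h3 := hgt_mul_le (k := k) (r * y j - y i) (v i - r * v j)⁻¹
    rw [← hc, hgt_inv] at h3
    exact h3
  have hneg : ∀ a : L, hgt k (-a) = hgt k a := by
    intro a
    unfold hgt
    congr 1
    funext P
    rw [P.ord_neg]
  have h4 : hgt k (r * y j - y i) ≤ hgt k r + hgt k (y j) + hgt k (y i) := by
    rw [sub_eq_add_neg]
    refine (hgt_add_le _ _).trans ?_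
    rw [hneg]
    have := hgt_mul_le (k := k) r (y j)
    linarith
  have h5 : hgt k (v i - r * v j) ≤ hgt k r + hgt k (v j) + hgt k (v i) := by
    rw [sub_eq_add_neg]
    refine (hgt_add_le _ _).trans ?_
    rw [hneg]
    have := hgt_mul_le (k := k) r (v j)
    linarith
  linarith

end heights

/-- **Failure.** -/
theorem fails_of_line {k : Type} [Field k] [IsAlgClosed k] [CharZero k] [Algebra k F] [IsFF k F]
    {κ : Type} [Finite κ] {p : Ideal (MvPolynomial (Fin (n + 1)) F)}
    {Q : κ → MvPolynomial (Fin (n + 1)) F} {q : κ → ℕ} (hQhom : ∀ j, (Q j).IsHomogeneous (q j))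
    (hQp : ∀ j, Q j ∉ p) (h : HasPuncturedLine p Q q) :
    ¬ ∃ (d : ℕ) (G : MvPolynomial (Fin (n + 1)) F), G.IsHomogeneous d ∧ G ∉ p ∧
      ∃ (B C : ℕ), ∀ (L : Type) [Field L] [Algebra k L] [Algebra F L]
      [IsScalarTower k F L] [FiniteDimensional F L] (f : Fin (n + 1) → L),
      (∀ H ∈ p, aeval f H = 0) → aeval f G ≠ 0 → (∀ j, aeval f (Q j) ≠ 0) →
        pht k f ≤ B * (canDeg k L + (meetsAny (k := k) Q q f).ncard) +
          C * Module.finrank F L := by
  classical
  have := Fintype.ofFinite κ
  rintro ⟨d, G, hGd, hGp, B, C, hineq⟩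
  haveI : CharZero F := Pool.Agent.R869.Wd.charZero_ext (k := k)
  obtain ⟨L, hfin, y, v, T, i, j, hij, hyG, hyQ, hpL, hT, hT'⟩ :=
    line_over_alg hQhom hQp h hGd hGp
  letI : Algebra k L := ((algebraMap F L).comp (algebraMap k F)).toAlgebra
  have : IsScalarTower k F L := IsScalarTower.of_algebraMap_eq' rfl
  have : IsFF k L := isFF_of_finite (F := F)
  obtain ⟨τ, hτ⟩ := IsFF.exists_transcendental (k := k) (K := L)
  have hτ0 : τ ≠ 0 := by
    rintro rfl
    exact hτ isAlgebraic_zero
  have hτh : 1 ≤ hgt k τ := by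
    rw [hgt_eq_finrank hτ]
    have h9 : FiniteDimensional (IntermediateField.adjoin k {τ}) L := IsFF.finite hτ
    exact_mod_cast Module.finrank_pos (R := IntermediateField.adjoin k {τ}) (M := L)
  -- the finite set of places
  obtain ⟨S1, hS1⟩ := exists_supp (k := k) (Finset.univ : Finset (Fin (n + 1))) y
  obtain ⟨S2, hS2⟩ := exists_supp (k := k) (Finset.univ : Finset (Fin (n + 1))) v
  obtain ⟨S3, hS3⟩ := exists_supp (k := k) (Finset.univ : Finset κ) fun j => aeval y (Q j)
  obtain ⟨S4, hS4⟩ := exists_supp (k := k) (Finset.univ : Finset (Fin 2))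
    ![τ, y i * v j - y j * v i]
  set S := S1 ∪ S2 ∪ S3 ∪ S4 with hS
  have hmeet : ∀ m : ℕ, (meetsAny (k := k) Q q (fun l => y l + (τ ^ m - 1) * v l)).ncard ≤
      S.card := by
    intro m
    rw [← Set.ncard_coe_finset S]
    refine Set.ncard_le_ncard ?_ (Finset.finite_toSet S)
    intro P hP
    by_contra hPS
    rw [Finset.mem_coe, hS, Finset.mem_union, Finset.mem_union, Finset.mem_union] at hPS
    push Not at hPS
    obtain ⟨⟨⟨hP1, hP2⟩, hP3⟩, hP4⟩ := hPS
    have hy0 : ∀ l, Ge P 0 (y l) := fun l => Or.inr (by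
      by_contra hlt
      exact hP1 (hS1 l (Finset.mem_univ _) P (by omega)))
    have hv0 : ∀ l, Ge P 0 (v l) := fun l => Or.inr (by
      by_contra hlt
      exact hP2 (hS2 l (Finset.mem_univ _) P (by omega)))
    have hτP : P.ord τ = 0 := by
      by_contra hne
      exact hP4 (hS4 0 (Finset.mem_univ _) P hne)
    have hDP : P.ord (y i * v j - y j * v i) = 0 := by
      by_contra hne
      exact hP4 (hS4 1 (Finset.mem_univ _) P hne)
    have hQP : ∀ j, P.ord (aeval y (Q j)) = 0 := fun j => by
      by_contra hne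
      exact hP3 (hS3 j (Finset.mem_univ _) P hne)
    have hc : Ge P 0 (τ ^ m - 1) := by
      refine Ge.sub ?_ Ge.one
      right
      rw [P.ord_pow, hτP, mul_zero]
    set f : Fin (n + 1) → L := fun l => y l + (τ ^ m - 1) * v l with hf
    have hf0 : ∀ l, Ge P 0 (f l) := fun l => (hy0 l).add (by simpa using hc.mul (hv0 l))
    have hfne : ∃ l, f l ≠ 0 := by
      by_contra hall
      push Not at hall
      apply hij
      have h1 := hall i
      have h2 := hall j
      simp only [hf] at h1 h2
      linear_combination (v j) * h1 - (v i) * h2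
    have hpord : pord P f = 0 := by
      obtain ⟨l, hl, hl2⟩ := exists_pord P hfne
      have hge : 0 ≤ pord P f := by
        rw [← hl2]
        exact (hf0 l).resolve_left hl
      by_contra hne
      have hpos : ∀ l, Ge P 1 (f l) := fun l => (ge_pord P f l).mono (by omega)
      have h1 : Ge P 1 (y i * v j - y j * v i) := by
        have h2 : y i * v j - y j * v i = f i * v j - f j * v i := by
          simp only [hf]
          ring
        rw [h2]
        exact ((by simpa using (hpos i).mul (hv0 j)) : Ge P 1 (f i * v j)).sub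
          (by simpa using (hpos j).mul (hv0 i))
      rcases h1 with h1 | h1
      · exact hij h1
      · omega
    obtain ⟨j1, hj1⟩ := hP
    rw [hpord, mul_zero] at hj1
    by_cases hjT : j1 ∈ T
    · rw [hT j1 hjT, P.ord_mul (hyQ j1) (pow_ne_zero _ (by
        rw [add_sub_cancel]
        exact pow_ne_zero _ hτ0)), hQP, P.ord_pow, add_sub_cancel, P.ord_pow, hτP] at hj1
      simp at hj1
    · rw [hT' j1 hjT, hQP] at hj1
      exact lt_irrefl _ hj1
  -- general points
  obtain ⟨R, hR⟩ := LS.exists_poly (k := F) y v G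
  have hR' : ∀ t : L, R.eval t = aeval (fun l => y l + t * v l) G := by
    intro t
    have h2 := hR L t
    rw [Polynomial.coe_aeval_eq_eval] at h2
    rw [h2]
    rfl
  have hR0 : R ≠ 0 := by
    rintro rfl
    apply hyG
    have h1 := hR' 0
    rw [Polynomial.eval_zero] at h1
    rw [eq_comm] at h1
    simpa using h1
  let R2 : Polynomial L := R * ((Polynomial.C (y i) + Polynomial.X * Polynomial.C (v i)) *
    (Polynomial.C (y j) + Polynomial.X * Polynomial.C (v j)))
  have hlin : ∀ a b : L, (a ≠ 0 ∨ b ≠ 0) →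
      (Polynomial.C a + Polynomial.X * Polynomial.C b) ≠ (0 : Polynomial L) := by
    intro a b hab h0
    have h1 := congrArg (fun g => Polynomial.coeff g 0) h0
    have h2 := congrArg (fun g => Polynomial.coeff g 1) h0
    simp at h1 h2
    rcases hab with h | h
    · exact h h1
    · exact h h2
  have hR2 : R2 ≠ 0 := by
    refine mul_ne_zero hR0 (mul_ne_zero (hlin _ _ ?_) (hlin _ _ ?_))
    · by_contra hcon
      push Not at hcon
      apply hij
      rw [hcon.1, hcon.2]
      ring
    · by_contra hcon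
      push Not at hcon
      apply hij
      rw [hcon.1, hcon.2]
      ring
  have hinj : Function.Injective fun m : ℕ => τ ^ m - 1 := by
    intro m m' hmm
    have h1 : τ ^ m = τ ^ m' := by
      simp only at hmm
      linear_combination hmm
    by_contra hne
    have h5 : ∀ m : ℕ, m ≠ 0 → τ ^ m ≠ 1 := by
      intro m hm h6
      refine hτ (IsAlgebraic.of_pow (Nat.pos_of_ne_zero hm) ?_)
      rw [h6]
      exact isAlgebraic_one
    rcases Nat.lt_or_gt_of_ne hne with h7 | h7
    · exact h5 (m' - m) (by omega) (by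
        have h8 : τ ^ m * τ ^ (m' - m) = τ ^ m * 1 := by
          rw [← pow_add, Nat.add_sub_cancel' h7.le, mul_one, h1]
        exact mul_left_cancel₀ (pow_ne_zero _ hτ0) h8)
    · exact h5 (m - m') (by omega) (by
        have h8 : τ ^ m' * τ ^ (m - m') = τ ^ m' * 1 := by
          rw [← pow_add, Nat.add_sub_cancel' h7.le, mul_one, h1]
        exact mul_left_cancel₀ (pow_ne_zero _ hτ0) h8)
  have hfinR : {m : ℕ | R2.eval (τ ^ m - 1) = 0}.Finite := by
    have h2 : {x | R2.eval x = 0}.Finite := by
      refine (R2.roots.toFinset.finite_toSet).subset fun x hx => ?_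
      simp only [Finset.mem_coe, Multiset.mem_toFinset, Polynomial.mem_roots hR2]
      exact hx
    exact h2.preimage hinj.injOn
  obtain ⟨A, hA⟩ := line_heights (k := k) y v hij
  set N0 : ℤ := 2 * (B * (max (canDeg k L) 0 + S.card) + C * Module.finrank F L) + A + 1 with hN0
  obtain ⟨m, hm, hmR⟩ : ∃ m ≥ N0.toNat, R2.eval (τ ^ m - 1) ≠ 0 := by
    by_contra hcon
    push Not at hcon
    exact (Set.Ici_infinite N0.toNat) (hfinR.subset fun m hm => hcon m hm)
  have hm' : N0 ≤ m := by
    have := Int.self_le_toNat N0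
    omega
  simp only [R2, Polynomial.eval_mul, Polynomial.eval_add, Polynomial.eval_C, Polynomial.eval_X,
    hR'] at hmR
  have hfG := left_ne_zero_of_mul hmR
  have hfi := left_ne_zero_of_mul (right_ne_zero_of_mul hmR)
  have hfj := right_ne_zero_of_mul (right_ne_zero_of_mul hmR)
  have h1 := hA _ hfi hfj
  have h2 := hineq L (fun l => y l + (τ ^ m - 1) * v l) (fun H hH => hpL H hH _) hfG (fun j1 => by
    by_cases hjT : j1 ∈ T
    · rw [hT j1 hjT]
      refine mul_ne_zero (hyQ j1) (pow_ne_zero _ ?_)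
      rw [add_sub_cancel]
      exact pow_ne_zero _ hτ0
    · rw [hT' j1 hjT]
      exact hyQ j1)
  have h3 : (m : ℤ) ≤ hgt k (τ ^ m - 1) := by
    have h4 : hgt k (τ ^ m) ≤ hgt k (τ ^ m - 1) + hgt k (1 : L) := by
      have h5 := hgt_add_le (k := k) (τ ^ m - 1) 1
      rwa [sub_add_cancel] at h5
    rw [hgt_one, add_zero, hgt_pow hτ0] at h4
    have h5 : (0 : ℤ) ≤ m := Nat.cast_nonneg m
    nlinarith
  have h10 : ((meetsAny (k := k) Q q (fun l => y l + (τ ^ m - 1) * v l)).ncard : ℤ) ≤ S.card := by
    exact_mod_cast hmeet m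
  have h11 : (B : ℤ) * (canDeg k L +
      (meetsAny (k := k) Q q (fun l => y l + (τ ^ m - 1) * v l)).ncard) ≤
      B * (max (canDeg k L) 0 + S.card) :=
    mul_le_mul_of_nonneg_left (by
      have := le_max_left (canDeg k L) 0
      linarith) (Nat.cast_nonneg _)
  linarith

end Pool.Agent.T6.H20.FV
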