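import Pool.Agent.T6.H20.FV.Gen

/-!
Vojta's height inequality for closed subvarieties of sparse varieties over function fields.
-/

set_option autoImplicit false

open FF MvPolynomial Pool.Agent.W603.LV Pool.Agent.W603.PV Pool.Agent.W602.GT
open Pool.Agent.R869.Wd (cut PtL VojtaV Vojta charZero_ext)

namespace Pool.Agent.T6.H20.FV

/-- orbits through the generic point -/
theorem rank_of {F A E : Type} [Field F] [Field A] [Field E] [Algebra F A] [Algebra A E]
    [Algebra F E] [IsScalarTower F A E] [IsAlgClosed A] {n : ℕ} {ι : Type} {U : Set (Fin (n + 1))}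
    {Fs : ι → MvPolynomial (Fin (n + 1)) F}
    (hnt : TS.NoTorusSurface U fun i => map (algebraMap F A) (Fs i)) {y : Fin (n + 1) → E}
    (hy0 : ∃ j, y j ≠ 0) (hyU : ∀ j ∈ U, y j ≠ 0) (b b' : Fin (n + 1) → ℤ)
    (h : ∀ t t' : E, t ≠ 0 → t' ≠ 0 → ∀ i,
      aeval (fun j => t ^ b j * t' ^ b' j * y j) (Fs i) = 0) :
    ∃ p0 q0 : ℤ, (p0 ≠ 0 ∨ q0 ≠ 0) ∧ ∀ j j', y j ≠ 0 → y j' ≠ 0 →
      p0 * b j + q0 * b' j = p0 * b j' + q0 * b' j' := by
  obtain ⟨i, hyi⟩ := hy0
  obtain ⟨x, hxy, -, hx⟩ := TS.special_point y (G := (1 : MvPolynomial (Fin (n + 1)) A))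
    (by unfold val; rw [map_one]; exact one_ne_zero)
  have hmx : ∀ t t' : A, t ≠ 0 → t' ≠ 0 → (fun j => t ^ b j * t' ^ b' j * x j) ∈
      ConeU U fun i => map (algebraMap F A) (Fs i) := by
    intro t t' ht ht'
    refine ⟨?_, ?_, ?_⟩
    · intro h0
      have h1 := congrFun h0 i
      exact mul_ne_zero (mul_ne_zero (zpow_ne_zero _ ht) (zpow_ne_zero _ ht')) ((hxy i).2 hyi) h1
    · exact fun j hj => mul_ne_zero (mul_ne_zero (zpow_ne_zero _ ht) (zpow_ne_zero _ ht'))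
        ((hxy j).2 (hyU j hj))
    · intro e
      have h1 := hx (TS.resc (fun j => t ^ b j * t' ^ b' j) (map (algebraMap F A) (Fs e))) (by
        rw [TS.val_resc, Pool.Agent.R869.Wd.val_map]
        have h2 := h (algebraMap A E t) (algebraMap A E t') ((_root_.map_ne_zero _).2 ht)
          ((_root_.map_ne_zero _).2 ht') e
        unfold val
        rw [← h2]
        congr 2
        funext j
        rw [map_mul, map_zpow₀, map_zpow₀])
      rw [TS.val_resc] at h1
      exact h1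
  obtain ⟨p, q, hpq, h⟩ := hnt x b b' hmx
  exact ⟨p, q, hpq, fun j j' hj hj' => h j j' ((hxy j).2 hj) ((hxy j').2 hj')⟩

/-- `X = {Φ = 0, x_j ≠ 0 for j in U}` is contained in `Y = {Fs = 0, x_j ≠ 0 for j in U}` over the
algebraic closure. -/
def Sub {F : Type} [Field F] {n : ℕ} {ι κ : Type} (U : Set (Fin (n + 1)))
    (Φ : κ → MvPolynomial (Fin (n + 1)) F) (Fs : ι → MvPolynomial (Fin (n + 1)) F) : Prop :=
  ConeU U (fun e => map (algebraMap F (AlgebraicClosure F)) (Φ e)) ⊆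
    ConeU U (fun e => map (algebraMap F (AlgebraicClosure F)) (Fs e))

variable {F : Type} [Field F] {n : ℕ} {ι κ : Type}

/-- A homogeneous prime ideal which contains the equations is stable under a one-parameter group, or
the system of unit equations is rigid. -/
theorem dich [CharZero F] (U : Finset (Fin (n + 1))) (Fs : ι → MvPolynomial (Fin (n + 1)) F)
    {e : ι → ℕ} (hF : ∀ i, (Fs i).IsHomogeneous (e i)) (N : ι → ℕ) (hN0 : ∀ i, 0 < N i)
    (hN : ∀ i, ((Fs i).support.card - 1) ^ 2 ≤ N i)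
    (hdiv : ∀ i, ∀ α ∈ (Fs i).support, ∀ j, j ∉ U → N i ∣ α j)
    (hnt : TS.NoTorusSurface (U : Set (Fin (n + 1)))
      fun i => map (algebraMap F (AlgebraicClosure F)) (Fs i))
    {Φ : κ → MvPolynomial (Fin (n + 1)) F} (hsub : Sub (U : Set (Fin (n + 1))) Φ Fs)
    {p : Ideal (MvPolynomial (Fin (n + 1)) F)} [p.IsPrime] (hom : IsHomog p) (hΦ : ∀ i, Φ i ∈ p)
    (hU : ∀ j ∈ U, X j ∉ p) (hx : ∃ j, X j ∉ p)
    (hst : ∀ b : Fin (n + 1) → ℤ, Stable p b → ∀ j l, X j ∉ p → X l ∉ p → b j = b l) :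
    ∃ hp : ∀ i, Fs i ∈ p, (fewSystem U Fs hF N hN0 hN hdiv p hp).Rigid := by
  let K0 := FractionRing (MvPolynomial (Fin (n + 1)) F ⧸ p)
  let E := AlgebraicClosure K0
  let A := AlgebraicClosure F
  let ψ : A →ₐ[F] E := IsAlgClosed.lift
  letI : Algebra A E := ψ.toRingHom.toAlgebra
  haveI : IsScalarTower F A E := IsScalarTower.of_algebraMap_eq' ψ.comp_algebraMap.symm
  let φ : K0 →ₐ[F] E := IsScalarTower.toAlgHom F K0 E
  let y : Fin (n + 1) → E := fun j => φ (xi p j)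
  have hyj : ∀ j, y j ≠ 0 ↔ X j ∉ p := by
    intro j
    change φ (xi p j) ≠ 0 ↔ _
    rw [_root_.map_ne_zero]
    exact ⟨not_mem_of_xi, xi_ne'⟩
  obtain ⟨j0, hj0⟩ := hx
  have hy0 : y ≠ 0 := fun h0 => (hyj j0).2 hj0 (congrFun h0 j0)
  have hyU : ∀ j ∈ (U : Set (Fin (n + 1))), y j ≠ 0 := fun j hj => (hyj j).2 (hU j hj)
  have hval : ∀ G : MvPolynomial (Fin (n + 1)) F, aeval y G = 0 ↔ G ∈ p := by
    intro G
    have h1 : aeval y G = φ (aeval (xi p) G) := (MvPolynomial.comp_aeval_apply _ φ G).symm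
    rw [h1, map_eq_zero]
    exact aeval_xi_eq_zero
  have hp : ∀ i, Fs i ∈ p := by
    intro i
    have h1 := val_of_cone (k := A) (F := fun e => map (algebraMap F A) (Φ e)) hy0 hyU
      (fun e => by
        rw [Pool.Agent.R869.Wd.val_map]
        exact (hval _).2 (hΦ e)) (G := map (algebraMap F A) (Fs i)) fun x hx => (hsub hx).2.2 i
    rw [Pool.Agent.R869.Wd.val_map] at h1
    exact (hval _).1 h1
  refine ⟨hp, few_rigid_sub U Fs hF N hN0 hN hdiv hom hp φ (fun b b' h => ?_) hst⟩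
  obtain ⟨p0, q0, hpq, h2⟩ := rank_of hnt (y := y) ⟨j0, (hyj j0).2 hj0⟩ hyU b b' h
  exact ⟨p0, q0, hpq, fun j j' hj hj' => h2 j j' ((hyj j).2 hj) ((hyj j').2 hj')⟩

/-- Vojta's height inequality for the subvarieties which are not stable. -/
theorem sub_vojta {k : Type} [Field k] [IsAlgClosed k] [CharZero k] [Algebra k F] [IsFF k F]
    [Finite ι] (U : Finset (Fin (n + 1))) (Fs : ι → MvPolynomial (Fin (n + 1)) F)
    (hF : ∀ i, IsForm (Fs i)) (hC : ∀ i, HighPowers U (Fs i).support)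
    (hnt : TS.NoTorusSurface (U : Set (Fin (n + 1)))
      fun i => map (algebraMap F (AlgebraicClosure F)) (Fs i))
    {Φ : κ → MvPolynomial (Fin (n + 1)) F} (hsub : Sub (U : Set (Fin (n + 1))) Φ Fs)
    {p : Ideal (MvPolynomial (Fin (n + 1)) F)} [p.IsPrime] (hom : IsHomog p) (hΦ : ∀ i, Φ i ∈ p)
    (hU : ∀ j ∈ U, X j ∉ p) (hx : ∃ j, X j ∉ p)
    (hst : ∀ b : Fin (n + 1) → ℤ, Stable p b → ∀ j l, X j ∉ p → X l ∉ p → b j = b l) :
    ∃ (d : ℕ) (G : MvPolynomial (Fin (n + 1)) F), G.IsHomogeneous d ∧ G ∉ p ∧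
      ∃ (B C : ℕ), ∀ (L : Type) [Field L] [Algebra k L] [Algebra F L] [IsScalarTower k F L]
      [FiniteDimensional F L] (f : Fin (n + 1) → L), p ≤ genI F f → aeval f G ≠ 0 →
        (∀ j ∈ U, f j ≠ 0) →
        pht k f ≤ B * (canDeg k L + (cut k (U : Set (Fin (n + 1))) f).ncard) +
          C * Module.finrank F L := by
  haveI : CharZero F := charZero_ext (k := k)
  choose e he using hF
  choose N hN0 hN hdiv using hC
  obtain ⟨hp, hR⟩ := dich U Fs he N hN0 hN hdiv hnt hsub hom hΦ hU hx hst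
  have hpp : p.IsPrime := inferInstance
  have hQp : (∏ j ∈ U, X j : MvPolynomial (Fin (n + 1)) F) ∉ p := by
    intro h
    obtain ⟨j, hjU, hj⟩ := (Ideal.IsPrime.prod_mem_iff (hp := hpp)).1 h
    exact hU j hjU hj
  have hQ : (∏ j ∈ U, X j : MvPolynomial (Fin (n + 1)) F).IsHomogeneous U.card := by
    have := IsHomogeneous.prod U (fun j => (X j : MvPolynomial (Fin (n + 1)) F)) (fun _ => 1)
      fun j _ => isHomogeneous_X _ _
    simpa using this
  obtain ⟨l0, hl0⟩ := hx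
  obtain ⟨d, G, hGd, hG, -, B, C, h⟩ := vojta.{0, 0, 0, 0} (k := k) hom
    hQ hQp (fewSystem U Fs he N hN0 hN hdiv p hp) hR ⟨l0, hl0⟩
  refine ⟨d + 1, G * X l0, hGd.mul (isHomogeneous_X _ _), ?_, B, C, ?_⟩
  · intro h
    rcases Ideal.IsPrime.mem_or_mem hpp h with h | h
    · exact hG h
    · exact hl0 h
  · intro L _ _ _ _ _ f hf hfG hfU
    have hL : IsFF k L := isFF_of_finite (F := F)
    rw [map_mul, aeval_X] at hfG
    have hfl : f l0 ≠ 0 := right_ne_zero_of_mul hfG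
    have hf' : ∀ H ∈ p, aeval f H = 0 := by
      intro H hH
      rw [← sum_homogeneousComponent H, map_sum]
      exact Finset.sum_eq_zero fun d _ => mem_genI.1 (hf hH) d
    refine (h L f hf' (left_ne_zero_of_mul hfG)).trans ?_
    have h1 : ((meets (k := k) (∏ j ∈ U, X j : MvPolynomial (Fin (n + 1)) F) U.card f).ncard : ℤ) ≤
        (cut k (U : Set (Fin (n + 1))) f).ncard := by
      have h2 : (cut k (U : Set (Fin (n + 1))) f) = boundary (k := k) U f := by
        ext P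
        simp only [cut, boundary, Set.mem_ofPred_eq, Finset.mem_coe]
      rw [h2]
      exact_mod_cast Set.ncard_le_ncard (meets_subset_gen U hfU) (boundary_finite U ⟨l0, hfl⟩)
    have h3 := mul_le_mul_of_nonneg_left h1 (by positivity : (0 : ℤ) ≤ B)
    linarith

end Pool.Agent.T6.H20.FV
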