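import Pool.Agent.T6.H20.FV.Mono
import Pool.Agent.T6.H20.TS.Spec
import Pool.Agent.R869.NCpt

/-!
The homogeneous prime ideals of points over extensions, and their behaviour under algebraic
extensions of the base field.
-/

set_option autoImplicit false

open FF MvPolynomial Pool.Agent.W603.LV Pool.Agent.W603.PV Pool.Agent.W602.GT

namespace Pool.Agent.T6.H20.FV

section gen

attribute [local instance] MvPolynomial.algebraMvPolynomial

variable {F : Type} [Field F] {K : Type} [Field K] [Algebra F K] {n : ℕ}

/-- the homogeneous prime ideal of the point `y` -/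
noncomputable def genI (F : Type) [Field F] {K : Type} [Field K] [Algebra F K] {n : ℕ}
    (y : Fin (n + 1) → K) : Ideal (MvPolynomial (Fin (n + 1)) F) :=
  RingHom.ker (aeval (fun j => RatFunc.X * algebraMap K (RatFunc K) (y j)) :
    MvPolynomial (Fin (n + 1)) F →ₐ[F] RatFunc K)

theorem poly_coeff_zero {s : Finset ℕ} {a : ℕ → K}
    (h : ∑ d ∈ s, (RatFunc.X : RatFunc K) ^ d * algebraMap K (RatFunc K) (a d) = 0) :
    ∀ d ∈ s, a d = 0 := by
  intro d hd
  have h1 : algebraMap (Polynomial K) (RatFunc K) (∑ d ∈ s, Polynomial.C (a d) * Polynomial.X ^ d) =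
      0 := by
    rw [← h, map_sum]
    refine Finset.sum_congr rfl fun e _ => ?_
    rw [map_mul, map_pow, RatFunc.algebraMap_X, mul_comm]
    rfl
  have h2 := (map_eq_zero_iff _ (IsFractionRing.injective (Polynomial K) (RatFunc K))).1 h1
  have h3 := congrArg (fun g => Polynomial.coeff g d) h2
  simpa [Polynomial.finsetSum_coeff, Polynomial.coeff_C_mul, Polynomial.coeff_X_pow, hd] using h3

theorem mem_genI {y : Fin (n + 1) → K} {H : MvPolynomial (Fin (n + 1)) F} :
    H ∈ genI F y ↔ ∀ d, aeval y (homogeneousComponent d H) = 0 := by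
  unfold genI
  rw [RingHom.mem_ker]
  have h1 : aeval (fun j => RatFunc.X * algebraMap K (RatFunc K) (y j)) H =
      ∑ d ∈ Finset.range (H.totalDegree + 1), (RatFunc.X : RatFunc K) ^ d *
        algebraMap K (RatFunc K) (aeval y (homogeneousComponent d H)) := by
    rw [aeval_scale_sum]
    refine Finset.sum_congr rfl fun d _ => ?_
    congr 1
    rw [← aeval_algebraMap_apply]
    rfl
  constructor
  · intro h d
    have h' : aeval (fun j => RatFunc.X * algebraMap K (RatFunc K) (y j)) H = 0 := h
    rw [h1] at h'
    by_cases hd : d ∈ Finset.range (H.totalDegree + 1)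
    · exact poly_coeff_zero h' d hd
    · rw [Finset.mem_range, not_lt] at hd
      rw [homogeneousComponent_eq_zero _ _ (by omega), map_zero]
  · intro h
    change aeval (fun j => RatFunc.X * algebraMap K (RatFunc K) (y j)) H = 0
    rw [h1]
    exact Finset.sum_eq_zero fun d _ => by rw [h d, map_zero, mul_zero]

instance genI_prime (y : Fin (n + 1) → K) : (genI F y).IsPrime := RingHom.ker_isPrime _

theorem comp_comp (d e : ℕ) (H : MvPolynomial (Fin (n + 1)) F) :
    homogeneousComponent e (homogeneousComponent d H) =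
      if e = d then homogeneousComponent d H else 0 := by
  split_ifs with h
  · subst h
    exact homogeneousComponent_of_mem (homogeneousComponent_mem _ _) |>.trans (if_pos rfl)
  · exact (homogeneousComponent_of_mem (homogeneousComponent_mem d H)).trans (if_neg h)

theorem genI_homog (y : Fin (n + 1) → K) : IsHomog (genI F y) := by
  intro H hH d
  rw [mem_genI] at hH ⊢
  intro e
  rw [comp_comp]
  split_ifs
  · exact hH d
  · rw [map_zero]

theorem form_mem_genI {y : Fin (n + 1) → K} {H : MvPolynomial (Fin (n + 1)) F}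
    (hH : IsForm H) : H ∈ genI F y ↔ aeval y H = 0 := by
  obtain ⟨d, hd⟩ := hH
  rw [mem_genI]
  constructor
  · intro h
    have h1 := h d
    rwa [homogeneousComponent_of_mem hd, if_pos rfl] at h1
  · intro h e
    rw [homogeneousComponent_of_mem hd]
    split_ifs
    · exact h
    · rw [map_zero]

theorem X_mem_genI {y : Fin (n + 1) → K} {j : Fin (n + 1)} :
    (X j : MvPolynomial (Fin (n + 1)) F) ∈ genI F y ↔ y j = 0 := by
  rw [form_mem_genI ⟨1, isHomogeneous_X _ _⟩, aeval_X]

theorem comp_map {A : Type} [Field A] [Algebra F A] (d : ℕ) (H : MvPolynomial (Fin (n + 1)) F) :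
    homogeneousComponent d (map (algebraMap F A) H) =
      map (algebraMap F A) (homogeneousComponent d H) := by
  ext α
  rw [coeff_homogeneousComponent, coeff_map, coeff_map, coeff_homogeneousComponent]
  split_ifs
  · rfl
  · rw [map_zero]

theorem map_mem_genI {A : Type} [Field A] [Algebra F A] [Algebra A K] [IsScalarTower F A K]
    {y : Fin (n + 1) → K} {H : MvPolynomial (Fin (n + 1)) F} :
    map (algebraMap F A) H ∈ genI A y ↔ H ∈ genI F y := by
  rw [mem_genI, mem_genI]
  refine forall_congr' fun d => ?_
  rw [comp_map, aeval_map_algebraMap]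

theorem isIntegral_mv {A : Type} [Field A] [Algebra F A] [Algebra.IsAlgebraic F A]
    (G : MvPolynomial (Fin (n + 1)) A) : IsIntegral (MvPolynomial (Fin (n + 1)) F) G := by
  induction G using MvPolynomial.induction_on with
  | C a =>
    have h1 : IsIntegral F (C a : MvPolynomial (Fin (n + 1)) A) := by
      have h2 : IsIntegral F a := Algebra.IsIntegral.isIntegral a
      have h3 := h2.map (IsScalarTower.toAlgHom F A (MvPolynomial (Fin (n + 1)) A))
      exact h3
    exact h1.tower_top
  | add p q hp hq => exact hp.add hq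
  | mul_X p j hp =>
    refine hp.mul ?_
    have h1 : (X j : MvPolynomial (Fin (n + 1)) A) =
        algebraMap (MvPolynomial (Fin (n + 1)) F) (MvPolynomial (Fin (n + 1)) A) (X j) := by
      rw [algebraMap_def, MvPolynomial.map_X]
    rw [h1]
    exact isIntegral_algebraMap

theorem map_whc {A : Type} [Field A] [Algebra F A] (b : Fin (n + 1) → ℤ) (v : ℤ)
    (H : MvPolynomial (Fin (n + 1)) F) :
    weightedHomogeneousComponent b v (map (algebraMap F A) H) =
      map (algebraMap F A) (weightedHomogeneousComponent b v H) := by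
  classical
  ext α
  rw [coeff_weightedHomogeneousComponent, coeff_map, coeff_map,
    coeff_weightedHomogeneousComponent]
  split_ifs
  · rfl
  · rw [map_zero]

/-- Stability passes to the components over an algebraic extension. -/
theorem stable_ext {A : Type} [Field A] [Algebra F A] [Algebra.IsAlgebraic F A] [Algebra A K]
    [IsScalarTower F A K] {y : Fin (n + 1) → K} {b : Fin (n + 1) → ℤ}
    (h : Stable (genI F y) b) : Stable (genI A y) b := by
  let Fs : genI F y → MvPolynomial (Fin (n + 1)) A := fun H => map (algebraMap F A) H.1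
  refine stable_of_min Fs (p := genI A y) ⟨⟨genI_prime y, ?_⟩, ?_⟩ b ?_
  · rw [Ideal.span_le]
    rintro _ ⟨H, rfl⟩
    exact map_mem_genI.2 H.2
  · rintro q ⟨hq, hqI⟩ hqP
    have hle : q ≤ genI A y := hqP
    intro H hH
    by_contra hHq
    have h1 := Ideal.comap_lt_comap_of_integral_mem_sdiff
      (R := MvPolynomial (Fin (n + 1)) F) (hI := hq) hle ⟨hH, hHq⟩ (isIntegral_mv H)
    refine h1.not_ge fun G hG => ?_
    rw [Ideal.mem_comap] at hG ⊢
    have h2 : G ∈ genI F y := map_mem_genI.1 (by rwa [algebraMap_def] at hG)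
    have h3 := hqI (Ideal.subset_span ⟨⟨G, h2⟩, rfl⟩)
    rwa [algebraMap_def]
  · intro H v
    rw [map_whc]
    exact map_mem_genI.2 (h H.1 H.2 v)

end gen

end Pool.Agent.T6.H20.FV
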