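import Pool.Agent.W603.PV.FewGen
import Pool.Agent.W603.PV.Lines
import Pool.Agent.T6.H20.TS.Stable

/-!
Closed subvarieties of varieties over function fields given by few monomials with large exponents,
which contain no two-dimensional orbits of tori: rigid systems.
-/

set_option autoImplicit false

open FF MvPolynomial Pool.Agent.W603.LV Pool.Agent.W603.PV Pool.Agent.W602.GT

namespace Pool.Agent.T6.H20.FV

open Classical in
/-- weighted sums of blocks -/
theorem block_sum {E : Type} [Field E] {s : ℕ} (T h : Fin s → E)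
    (R : Fin s → Fin s → Prop) (hR : Equivalence R)
    (hsum : ∀ a, ∑ b ∈ Finset.univ.filter (R a), T b = 0)
    (hh : ∀ a b, R a b → T a ≠ 0 → T b ≠ 0 → h a = h b) : ∑ a, h a * T a = 0 := by
  let σ : Setoid (Fin s) := ⟨R, hR⟩
  rw [← Finset.sum_fiberwise_of_maps_to (s := Finset.univ)
    (t := Finset.univ.image (Quotient.mk σ))
    (g := Quotient.mk σ) (fun α hα => Finset.mem_image_of_mem _ hα)]
  refine Finset.sum_eq_zero fun c hc => ?_
  rw [Finset.mem_image] at hc
  obtain ⟨a0, -, rfl⟩ := hc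
  have hfil : Finset.univ.filter (fun a => Quotient.mk σ a = Quotient.mk σ a0) =
      Finset.univ.filter (R a0) := by
    ext a
    simp only [Finset.mem_filter, Finset.mem_univ, true_and]
    constructor
    · intro h; exact hR.symm (Quotient.exact h)
    · intro h; exact Quotient.sound (hR.symm h)
  rw [hfil]
  by_cases hall : ∀ b, R a0 b → T b = 0
  · refine Finset.sum_eq_zero fun b hb => ?_
    rw [hall b (Finset.mem_filter.1 hb).2, mul_zero]
  · push Not at hall
    obtain ⟨b0, hb0, hT0⟩ := hall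
    have key : ∀ b ∈ Finset.univ.filter (R a0), h b * T b = h b0 * T b := by
      intro b hb
      by_cases hT : T b = 0
      · rw [hT, mul_zero, mul_zero]
      · rw [hh b b0 (hR.trans (hR.symm (Finset.mem_filter.1 hb).2) hb0) hT hT0]
    rw [Finset.sum_congr rfl key, ← Finset.mul_sum, hsum a0, mul_zero]

/-- the weight of a monomial at a rescaled point -/
theorem zpow_weight {E : Type} [Field E] {n : ℕ} (α : Fin (n + 1) → ℕ) {u : E} (hu : u ≠ 0)
    (c : Fin (n + 1) → ℤ) : u ^ (∑ j, (α j : ℤ) * c j) = ∏ j, (u ^ c j) ^ α j := by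
  have h3 : ∀ s : Finset (Fin (n + 1)), u ^ (∑ j ∈ s, (α j : ℤ) * c j) =
      ∏ j ∈ s, (u ^ c j) ^ α j := by
    intro s
    induction s using Finset.induction_on with
    | empty => simp
    | insert a s ha ih =>
      rw [Finset.sum_insert ha, Finset.prod_insert ha, zpow_add₀ hu, ih,
        mul_comm (α a : ℤ), zpow_mul, zpow_natCast]
  exact h3 _

/-- the weighted part is the weighted homogeneous component -/
theorem wc_eq_comp {F : Type} [Field F] {n : ℕ} (b : Fin (n + 1) → ℤ) (v : ℤ)
    (G : MvPolynomial (Fin (n + 1)) F) : wc b v G = weightedHomogeneousComponent b v G := by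
  classical
  rw [weightedHomogeneousComponent_apply]
  unfold wc
  refine Finset.sum_congr ?_ fun _ _ => rfl
  ext α
  simp only [Finset.mem_filter]
  refine and_congr Iff.rfl ?_
  rw [Finsupp.weight_apply, Finsupp.sum_fintype _ _ (by simp)]
  simp only [nsmul_eq_mul]

variable {F : Type} [Field F] {n : ℕ} {ι : Type} {p : Ideal (MvPolynomial (Fin (n + 1)) F)}
  [p.IsPrime]

open Classical in
/-- **Rigidity** for closed subvarieties. -/
theorem few_rigid_sub [CharZero F] (U : Finset (Fin (n + 1)))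
    (Fs : ι → MvPolynomial (Fin (n + 1)) F)
    {e : ι → ℕ} (hF : ∀ i, (Fs i).IsHomogeneous (e i)) (N : ι → ℕ) (hN0 : ∀ i, 0 < N i)
    (hN : ∀ i, ((Fs i).support.card - 1) ^ 2 ≤ N i)
    (hdiv : ∀ i, ∀ α ∈ (Fs i).support, ∀ j, j ∉ U → N i ∣ α j)
    (hom : IsHomog p) (hp : ∀ i, Fs i ∈ p)
    {E : Type} [Field E] [Algebra F E] (φ : FractionRing (MvPolynomial (Fin (n + 1)) F ⧸ p) →ₐ[F] E)
    (hnt : ∀ b b' : Fin (n + 1) → ℤ, (∀ t t' : E, t ≠ 0 → t' ≠ 0 → ∀ i,
        aeval (fun j => t ^ b j * t' ^ b' j * φ (xi p j)) (Fs i) = 0) →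
      ∃ p0 q0 : ℤ, (p0 ≠ 0 ∨ q0 ≠ 0) ∧ ∀ j j', X j ∉ p → X j' ∉ p →
        p0 * b j + q0 * b' j = p0 * b j' + q0 * b' j')
    (hst : ∀ b : Fin (n + 1) → ℤ, Stable p b → ∀ j l, X j ∉ p → X l ∉ p → b j = b l) :
    (fewSystem U Fs hF N hN0 hN hdiv p hp).Rigid := by
  by_contra hE
  obtain ⟨D, R, hR, hsum, hD, j1, l1, hjl⟩ := exists_flow _ hE
  let K := FractionRing (MvPolynomial (Fin (n + 1)) F ⧸ p)
  have hK : CharZero K := charZero_of_injective_algebraMap (algebraMap F K).injective
  let y : Fin (n + 1) → K := xi p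
  let T : (i : ι) → Fin (Fs i).support.card → K := fun i a =>
    algebraMap F K ((Fs i).coeff (al Fs i a)) * ∏ j, y j ^ al Fs i a j
  have hT : ∀ i a, algebraMap _ K ((fewSystem U Fs hF N hN0 hN hdiv p hp).term i a) = T i a := by
    intro i a
    rw [fewSystem_term, Pool.Agent.W603.PV.map_monomial]
    simp only [zpow_natCast, T]
    rfl
  have hsum' : ∀ i a, ∑ b ∈ Finset.univ.filter (R i a), T i b = 0 := by
    intro i a
    rw [← hsum i a]
    exact Finset.sum_congr rfl fun b _ => (hT i b).symm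
  have hD' : ∀ i a b, R i a b → D (T i a / T i b) = 0 := by
    intro i a b hab
    rw [← hT i a, ← hT i b]
    exact hD i a b hab
  have hyj : y j1 ≠ 0 := by
    intro h0
    apply hjl
    change D (y j1) * y l1 = D (y l1) * y j1
    rw [h0, map_zero, zero_mul, mul_zero]
  have hyl : y l1 ≠ 0 := by
    intro h0
    apply hjl
    change D (y j1) * y l1 = D (y l1) * y j1
    rw [h0, map_zero, zero_mul, mul_zero]
  let θ : Fin (n + 1) → K := fun j => D (y j) / y j
  have hlam : θ j1 ≠ θ l1 := by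
    intro h0
    apply hjl
    change D (y j1) * y l1 = D (y l1) * y j1
    simp only [θ] at h0
    rw [div_eq_div_iff hyj hyl] at h0
    exact h0
  let P : (Fin (n + 1) → ℤ) → Prop := fun b => ∀ r : Fin (n + 1) → ℤ,
    ∑ j, (r j : K) * θ j = 0 → ∑ j, r j * b j = 0
  obtain ⟨b0, hb0, hbP⟩ := int_weights θ hlam
  have hrk : ∀ b b', P b → P b' → ∃ p q : ℤ, (p ≠ 0 ∨ q ≠ 0) ∧ ∀ j j', y j ≠ 0 → y j' ≠ 0 →
      p * b j + q * b' j = p * b j' + q * b' j' := by
    intro b b' hb hb'
    suffices hall : ∀ t t' : E, t ≠ 0 → t' ≠ 0 → ∀ i,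
        aeval (fun j => t ^ b j * t' ^ b' j * φ (y j)) (Fs i) = 0 by
      obtain ⟨p0, q0, hpq, h⟩ := hnt b b' hall
      exact ⟨p0, q0, hpq, fun j j' hj hj' => h j j' (not_mem_of_xi hj) (not_mem_of_xi hj')⟩
    intro t t' ht ht' i
    have h1 : aeval (fun j => t ^ b j * t' ^ b' j * φ (y j)) (Fs i) =
        ∑ a, (t ^ (∑ j, (al Fs i a j : ℤ) * b j) * t' ^ (∑ j, (al Fs i a j : ℤ) * b' j)) *
          φ (T i a) := by
      rw [sum_al Fs i (fun α => (t ^ (∑ j, (α j : ℤ) * b j) * t' ^ (∑ j, (α j : ℤ) * b' j)) *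
        φ (algebraMap F K ((Fs i).coeff α) * ∏ j, y j ^ α j))]
      have h2 := val_eq_sum (k := F) (fun j => t ^ b j * t' ^ b' j * φ (y j)) (Fs i)
      unfold val at h2
      rw [h2]
      refine Finset.sum_congr rfl fun α _ => ?_
      rw [zpow_weight (fun j => α j) ht b, zpow_weight (fun j => α j) ht' b']
      have h3 : φ (algebraMap F K ((Fs i).coeff α)) = algebraMap F E ((Fs i).coeff α) :=
        φ.commutes _
      simp only [mul_pow, Finset.prod_mul_distrib, map_mul, map_prod, map_pow, h3]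
      ring
    rw [h1]
    refine block_sum (fun a => φ (T i a)) _ (R i) (hR i) (fun a => by
      rw [← map_sum, hsum' i a, map_zero]) fun a a' haa ha ha' => ?_
    have ha : T i a ≠ 0 := fun h0 => ha (by rw [h0, map_zero])
    have ha' : T i a' ≠ 0 := fun h0 => ha' (by rw [h0, map_zero])
    have h3 := hD' i a a' haa
    have h3' : D (T i a) * T i a' = T i a * D (T i a') := by
      rw [div_eq_mul_inv, D.leibniz, D.leibniz_inv] at h3
      simp only [smul_eq_mul] at h3
      field_simp at h3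
      linear_combination h3
    rw [der_mon D ha, der_mon D ha'] at h3'
    have h4 : ∑ j, ((al Fs i a) j : K) * θ j = ∑ j, ((al Fs i a') j : K) * θ j := by
      apply mul_left_cancel₀ (mul_ne_zero ha ha')
      simp only [θ, T] at h3' ⊢
      linear_combination h3'
    have h5 : ∀ c, P c → ∑ j, ((al Fs i a) j : ℤ) * c j = ∑ j, ((al Fs i a') j : ℤ) * c j := by
      intro c hc
      have h6 := hc (fun j => ((al Fs i a) j : ℤ) - ((al Fs i a') j : ℤ)) (by
        push_cast
        simp only [sub_mul, Finset.sum_sub_distrib]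
        rw [h4, sub_self])
      simp only [sub_mul, Finset.sum_sub_distrib] at h6
      exact sub_eq_zero.1 h6
    rw [h5 b hb, h5 b' hb']
  have hprop := fun {j j'} hj hj' => Pool.Agent.T6.H20.TS.prop_of_rank θ (fun j => y j ≠ 0) P
    (fun b hb => hb) hrk hbP hyj hyl hb0 (j := j) (j' := j') hj hj'
  have hbne : ((b0 j1 : K) - b0 l1) ≠ 0 := by
    rw [sub_ne_zero]
    exact_mod_cast hb0
  refine hb0 (hst b0 (fun H hH c => ?_) j1 l1 (not_mem_of_xi hyj) (not_mem_of_xi hyl))
  -- the components of the homogeneous components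
  have hcomp : ∀ d, weightedHomogeneousComponent b0 c (homogeneousComponent d H) ∈ p := by
    intro d
    have h1 := Pool.Agent.T6.H20.TS.weighted_terms D
      (c := θ l1 - (θ j1 - θ l1) / ((b0 j1 : K) - b0 l1) * b0 l1)
      (β := (θ j1 - θ l1) / ((b0 j1 : K) - b0 l1)) (div_ne_zero (sub_ne_zero.2 hlam) hbne)
      (y := y) (b := b0) (fun j hj => by
        have h1 : (θ j - θ l1) * ((b0 j1 : K) - b0 l1) = (θ j1 - θ l1) * ((b0 j : K) - b0 l1) :=
          hprop hj hyl
        have h2 : θ j - θ l1 =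
            (θ j1 - θ l1) / ((b0 j1 : K) - b0 l1) * ((b0 j : K) - b0 l1) := by
          rw [div_mul_eq_mul_div, eq_div_iff hbne]; exact h1
        change θ j = _
        linear_combination h2) (homogeneousComponent_isHomogeneous d H)
      (by
        change aeval (xi p) (homogeneousComponent d H) = 0
        exact aeval_xi_eq_zero.2 (hom H hH d)) c
    rw [← wc_eq_comp]
    exact aeval_xi_eq_zero.1 h1
  have h2 : weightedHomogeneousComponent b0 c H =
      ∑ d ∈ Finset.range (H.totalDegree + 1),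
        weightedHomogeneousComponent b0 c (homogeneousComponent d H) := by
    conv_lhs => rw [← sum_homogeneousComponent H]
    rw [map_sum]
  rw [h2]
  exact Ideal.sum_mem _ fun d _ => hcomp d

end Pool.Agent.T6.H20.FV
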