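import Pool.Agent.W603.CZ.Vojta

/-!
The field of the elements of small height is relatively algebraically closed.
-/

set_option autoImplicit false

open FF Filter Pool.Agent.W603.LV Pool.Agent.W603.CZ

namespace Pool.Agent.T6.H20.FV

section root

variable {k L : Type} [Field k] [Field L] [Algebra k L]

theorem pole_of_monic (P : Place k L) {d : ℕ} (c : Fin d → L) {a : L} (ha : a ≠ 0)
    (h : a ^ d = ∑ m : Fin d, c m * a ^ (m : ℕ)) :
    max (-P.ord a) 0 ≤ ∑ m, max (-P.ord (c m)) 0 := by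
  have h0 : ∀ m, (0 : ℤ) ≤ max (-P.ord (c m)) 0 := fun m => le_max_right _ _
  by_contra hcon
  push Not at hcon
  have hs : (0 : ℤ) ≤ ∑ m, max (-P.ord (c m)) 0 := Finset.sum_nonneg fun m _ => h0 m
  have hneg : P.ord a < 0 := by
    by_contra hge
    have : max (-P.ord a) 0 = 0 := max_eq_right (by omega)
    omega
  have hmax : max (-P.ord a) 0 = -P.ord a := max_eq_left (by omega)
  rw [hmax] at hcon
  have hge : Ge P (d * P.ord a + 1) (a ^ d) := by
    rw [h]
    refine Ge.sum _ _ fun m _ => ?_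
    by_cases hc : c m = 0
    · rw [hc, zero_mul]
      exact Ge.zero
    · right
      rw [P.ord_mul hc (pow_ne_zero _ ha), P.ord_pow]
      have h1 : max (-P.ord (c m)) 0 ≤ ∑ m, max (-P.ord (c m)) 0 :=
        Finset.single_le_sum (f := fun m => max (-P.ord (c m)) 0) (fun m _ => h0 m)
          (Finset.mem_univ m)
      have h2 : -P.ord (c m) ≤ max (-P.ord (c m)) 0 := le_max_left _ _
      have h3 : P.ord a + 1 ≤ P.ord (c m) := by omega
      have h4 : ((m : ℕ) : ℤ) + 1 ≤ d := by exact_mod_cast m.2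
      nlinarith
  rcases hge with h1 | h1
  · exact pow_ne_zero _ ha h1
  · rw [P.ord_pow] at h1
    omega

theorem hgt_of_monic [CharZero k] [IsFF k L] {d : ℕ} (c : Fin d → L) {a : L}
    (h : a ^ d = ∑ m : Fin d, c m * a ^ (m : ℕ)) : hgt k a ≤ ∑ m, hgt k (c m) := by
  classical
  by_cases ha : a = 0
  · rw [ha]
    have h1 : hgt k (0 : L) = 0 := by
      unfold hgt
      simp [Place.ord_zero]
    rw [h1]
    exact Finset.sum_nonneg fun m _ => hgt_nonneg _
  obtain ⟨T1, hT1⟩ := exists_supp (k := k) (Finset.univ : Finset (Option (Fin d)))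
    (fun o => Option.elim o a c)
  rw [hgt_finset a T1 fun P hP => hT1 none (Finset.mem_univ _) P hP,
    Finset.sum_congr rfl fun m _ => hgt_finset (c m) T1 fun P hP =>
      hT1 (some m) (Finset.mem_univ _) P hP, Finset.sum_comm]
  exact Finset.sum_le_sum fun P _ => pole_of_monic P c ha h

end root

variable {I : Type} {𝒰 : Ultrafilter I} {k F : Type} [Field k] [Field F] {L : I → Type}
  [∀ i, Field (L i)] [∀ i, Algebra k (L i)] [∀ i, Algebra F (L i)] [IsAlgClosed k] [CharZero k]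
  [∀ i, IsFF k (L i)]

/-- **Algebraic elements are small.** -/
theorem small_alg {χ : I → ℤ} {E : IntermediateField F (UL 𝒰 L)} (hE : IsSmall 𝒰 k χ E)
    {z : UL 𝒰 L} (hz : IsAlgebraic E z) : z ∈ E := by
  have hint := hz.isIntegral
  obtain ⟨p, hp, hpz⟩ := hint
  obtain ⟨a, rfl⟩ := um_surj 𝒰 z
  have hco : ∀ m : Fin p.natDegree, ∃ c : ∀ i, L i, um 𝒰 c = -((p.coeff m : E) : UL 𝒰 L) :=
    fun m => um_surj 𝒰 _
  choose c hc using hco
  have hcE : ∀ m, um 𝒰 (c m) ∈ E := fun m => by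
    rw [hc]
    exact neg_mem (p.coeff m).2
  have hrel : um 𝒰 (fun i => a i ^ p.natDegree) =
      um 𝒰 (fun i => ∑ m : Fin p.natDegree, c m i * a i ^ (m : ℕ)) := by
    rw [um_pow, um_sum]
    have h1 : ∀ m : Fin p.natDegree, um 𝒰 (fun i => c m i * a i ^ (m : ℕ)) =
        -((p.coeff m : E) : UL 𝒰 L) * um 𝒰 a ^ (m : ℕ) := by
      intro m
      rw [um_mul, um_pow, hc]
    rw [Finset.sum_congr rfl fun m _ => h1 m]
    have h2 := hpz
    rw [Polynomial.eval₂_eq_sum_range, Finset.sum_range_succ, hp.coeff_natDegree, map_one,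
      one_mul, ← Fin.sum_univ_eq_sum_range
        (fun m => algebraMap E (UL 𝒰 L) (p.coeff m) * um 𝒰 a ^ m)] at h2
    have h3 : ∑ m : Fin p.natDegree, -((p.coeff m : E) : UL 𝒰 L) * um 𝒰 a ^ (m : ℕ) =
        - ∑ m : Fin p.natDegree, algebraMap E (UL 𝒰 L) (p.coeff m) * um 𝒰 a ^ (m : ℕ) := by
      rw [← Finset.sum_neg_distrib]
      refine Finset.sum_congr rfl fun m _ => ?_
      rw [neg_mul]
      rfl
    rw [h3]
    linear_combination h2
  rw [um_eq] at hrel
  have hB := fun m => (hE.2 (c m)).1 (hcE m)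
  choose B hB using hB
  rw [hE.2]
  refine ⟨∑ m, B m, ?_⟩
  filter_upwards [hrel, eventually_all.2 hB] with i h1 h2
  refine (hgt_of_monic (fun m => c m i) h1).trans ?_
  push_cast
  rw [Finset.sum_mul]
  exact Finset.sum_le_sum fun m _ => h2 m

end Pool.Agent.T6.H20.FV
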