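import Pool.Agent.W603.CZ.Vojta
import Pool.Agent.T6.H20.LS.Span
import Pool.Agent.T6.H20.FV.Small

/-!
Linear spaces over the field of small elements: planes, and lines in closed subvarieties.
-/

set_option autoImplicit false

open FF Filter MvPolynomial Pool.Agent.W603.LV Pool.Agent.W603.PV Pool.Agent.W602.GT
  Pool.Agent.W603.GY Pool.Agent.W603.GX Pool.Agent.W603.GW Pool.Agent.W603.GR
  Pool.Agent.W603.CZ

namespace Pool.Agent.T6.H20.FV

variable {F K : Type} [Field F] [Field K] [Algebra F K] {E : IntermediateField F K} {n : ℕ}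
  {ι κ : Type} {Fs : ι → MvPolynomial (Fin (n + 1)) F} {Q : κ → MvPolynomial (Fin (n + 1)) F}
  {y : Fin (n + 1) → K} {lq : κ → Fin (n + 1) → F}

/-- the value of a linear form at a transformed point -/
theorem lin_map {ls : Fin (n + 1) → F} (φ : K →ₗ[E] K) (m : Fin (n + 1) → F) :
    Pool.Agent.W602.GT.lin m (fun t => Pool.Agent.W602.GT.lin ls y *
      φ (y t / Pool.Agent.W602.GT.lin ls y)) = Pool.Agent.W602.GT.lin ls y *
      φ (Pool.Agent.W602.GT.lin m y / Pool.Agent.W602.GT.lin ls y) := by
  have hφE : ∀ (c x : K), c ∈ E → φ (c * x) = c * φ x := by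
    intro c x hc
    exact φ.map_smul (⟨c, hc⟩ : E) x
  have h2 : Pool.Agent.W602.GT.lin m y / Pool.Agent.W602.GT.lin ls y =
      ∑ t, algebraMap F K (m t) * (y t / Pool.Agent.W602.GT.lin ls y) := by
    rw [← lin_div]
    rfl
  rw [h2, map_sum, Finset.mul_sum]
  unfold Pool.Agent.W602.GT.lin
  refine Finset.sum_congr rfl fun t _ => ?_
  rw [hφE _ _ (E.algebraMap_mem _)]
  ring

theorem linC_map {ls : Fin (n + 1) → F} (φ : K →ₗ[E] K) :
    LinC (PrC E y) y (fun t => Pool.Agent.W602.GT.lin ls y *
      φ (y t / Pool.Agent.W602.GT.lin ls y)) := by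
  have hφE : ∀ (c x : K), c ∈ E → φ (c * x) = c * φ x := by
    intro c x hc
    exact φ.map_smul (⟨c, hc⟩ : E) x
  refine ⟨fun m hm => by rw [lin_map, hm, zero_div, map_zero, mul_zero], fun p hp => ?_⟩
  obtain ⟨h2, h3, h4⟩ := hp
  have h5 : Pool.Agent.W602.GT.lin p.1 y / Pool.Agent.W602.GT.lin ls y =
      (Pool.Agent.W602.GT.lin p.1 y / Pool.Agent.W602.GT.lin p.2 y) *
      (Pool.Agent.W602.GT.lin p.2 y / Pool.Agent.W602.GT.lin ls y) := by
    field_simp
  rw [lin_map, lin_map, h5, hφE _ _ h4]
  ring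

/-- **Planes.** -/
theorem plane_of_three {Ω A : Type} [Field Ω] [Field A] [Algebra K Ω] [Algebra F Ω]
    [IsScalarTower F K Ω] [Algebra F A] [Algebra A Ω] [IsScalarTower F A Ω] [IsAlgClosed A]
    (hG : Good Fs Q y (PrC E y) lq) {ls : Fin (n + 1) → F}
    (hls : Pool.Agent.W602.GT.lin ls y ≠ 0) {l s : Fin (n + 1)}
    (hli : LinearIndependent E ![(1 : K), y l / Pool.Agent.W602.GT.lin ls y,
      y s / Pool.Agent.W602.GT.lin ls y]) :
    LS.HasPlane (fun i => map (algebraMap F A) (Fs i)) := by
  classical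
  set v : Fin 3 → K := ![(1 : K), y l / Pool.Agent.W602.GT.lin ls y,
      y s / Pool.Agent.W602.GT.lin ls y] with hv
  have hinj : Function.Injective (Fintype.linearCombination E v) :=
    hli.fintypeLinearCombination_injective
  obtain ⟨g, hg⟩ := LinearMap.exists_leftInverse_of_injective _ (LinearMap.ker_eq_bot.2 hinj)
  have hgv : ∀ j, g (v j) = Pi.single j 1 := by
    intro j
    have h1 : Fintype.linearCombination E v (Pi.single j 1) = v j := by
      simp [Fintype.linearCombination_apply, Pi.single_apply]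
    rw [← h1]
    exact LinearMap.congr_fun hg _
  let φ : Fin 3 → K →ₗ[E] K := fun j =>
    (Algebra.linearMap E K).comp ((LinearMap.proj j).comp g)
  have hφ : ∀ i j, φ i (v j) = if i = j then 1 else 0 := by
    intro i j
    change algebraMap E K (g (v j) i) = _
    rw [hgv, Pi.single_apply]
    split_ifs <;> simp
  -- the three vectors
  let e : Fin 3 → Fin (n + 1) → K := fun i t => Pool.Agent.W602.GT.lin ls y *
    φ i (y t / Pool.Agent.W602.GT.lin ls y)
  let a : Fin 3 → Fin (n + 1) → Ω := fun i t => algebraMap K Ω (e i t)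
  have hlin : ∀ (c : Fin 3 → Ω) (m : Fin (n + 1) → F),
      Pool.Agent.W602.GT.lin m (fun t => ∑ i, c i * a i t) =
      ∑ i, c i * algebraMap K Ω (Pool.Agent.W602.GT.lin m (e i)) := by
    intro c m
    unfold Pool.Agent.W602.GT.lin
    simp only [map_sum, map_mul, Finset.mul_sum, a]
    rw [Finset.sum_comm]
    refine Finset.sum_congr rfl fun i _ => Finset.sum_congr rfl fun t _ => ?_
    rw [← IsScalarTower.algebraMap_apply F K Ω]
    ring
  have hinV : ∀ c : Fin 3 → Ω, InV (PrC E y) y (fun t => ∑ i, c i * a i t) := by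
    intro c
    refine ⟨fun m hm => ?_, fun p hp => ?_⟩
    · rw [hlin]
      refine Finset.sum_eq_zero fun i _ => ?_
      rw [(linC_map (ls := ls) (φ i)).1 m hm, map_zero, mul_zero]
    · rw [hlin, hlin, Finset.mul_sum]
      refine Finset.sum_congr rfl fun i _ => ?_
      rw [(linC_map (ls := ls) (φ i)).2 p hp, map_mul]
      ring
  have hlia : LinearIndependent Ω a := by
    rw [Fintype.linearIndependent_iff]
    intro c hc
    have hls' : algebraMap K Ω (Pool.Agent.W602.GT.lin ls y) ≠ 0 := by
      rw [Ne, map_eq_zero]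
      exact hls
    have hc' : ∀ t, ∑ i, c i * a i t = 0 := by
      intro t
      have h1 := congrFun hc t
      simpa [Finset.sum_apply] using h1
    have h0 : ∀ j, ∑ i, c i * algebraMap K Ω (Pool.Agent.W602.GT.lin ls y * φ i (v j)) = 0 := by
      intro j
      fin_cases j
      · have h1 := hlin c ls
        have h2 : Pool.Agent.W602.GT.lin ls (fun t => ∑ i, c i * a i t) = 0 := by
          unfold Pool.Agent.W602.GT.lin
          simp only [hc', mul_zero, Finset.sum_const_zero]
        rw [h2] at h1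
        rw [h1]
        refine Finset.sum_congr rfl fun i _ => ?_
        rw [lin_map, div_self hls]
        rfl
      · exact hc' l
      · exact hc' s
    intro i
    have h1 := h0 i
    rw [Finset.sum_eq_single i] at h1
    · rw [hφ, if_pos rfl, mul_one] at h1
      exact (mul_eq_zero.1 h1).resolve_right hls'
    · intro i' _ hi'
      rw [hφ, if_neg hi', mul_zero, map_zero, mul_zero]
    · intro h
      exact absurd (Finset.mem_univ i) h
  obtain ⟨b, hb, -, hb2⟩ := LS.specialise_span (k := A) a hlia 1 (by rw [map_one]; exact one_ne_zero)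
  refine ⟨b, hb, fun c i => ?_⟩
  have h1 := hb2 (LS.subst c (map (algebraMap F A) (Fs i))) (by
    rw [LS.eval_subst]
    have h2 := hG.van Ω _ (hinV fun j => algebraMap A Ω (c j)) i
    rw [show Pool.Agent.W602.GT.val (fun i => ∑ j, algebraMap A Ω (c j) * a j i)
      (map (algebraMap F A) (Fs i)) = Pool.Agent.W602.GT.val
        (fun i => ∑ j, algebraMap A Ω (c j) * a j i) (Fs i) from by
          unfold Pool.Agent.W602.GT.val
          rw [aeval_map_algebraMap]]
    exact h2)
  rw [LS.eval_subst] at h1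
  rw [← h1]
  congr 1

/-- In the absence of planes all coordinates are combinations of two of them. -/
theorem comb_two (hG : Good Fs Q y (PrC E y) lq)
    (hpl : ¬ LS.HasPlane (fun i => map (algebraMap F (AlgebraicClosure F)) (Fs i)))
    {ls : Fin (n + 1) → F} (hls : Pool.Agent.W602.GT.lin ls y ≠ 0) {l : Fin (n + 1)}
    (hl : y l / Pool.Agent.W602.GT.lin ls y ∉ E) (s : Fin (n + 1)) :
    ∃ u w : E, y s / Pool.Agent.W602.GT.lin ls y =
      u + y l / Pool.Agent.W602.GT.lin ls y * w := by
  by_contra hcon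
  push Not at hcon
  let ψ : AlgebraicClosure F →ₐ[F] AlgebraicClosure K := IsAlgClosed.lift
  letI : Algebra (AlgebraicClosure F) (AlgebraicClosure K) := ψ.toRingHom.toAlgebra
  haveI : IsScalarTower F (AlgebraicClosure F) (AlgebraicClosure K) :=
    IsScalarTower.of_algebraMap_eq' ψ.comp_algebraMap.symm
  refine hpl (plane_of_three (Ω := AlgebraicClosure K) (A := AlgebraicClosure F) hG hls
    (l := l) (s := s) ?_)
  rw [Fintype.linearIndependent_iff]
  intro c hc
  rw [Fin.sum_univ_three] at hc
  simp only [Matrix.cons_val_zero, Matrix.cons_val_one, Matrix.cons_val_two, Matrix.head_cons,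
    Matrix.tail_cons, Algebra.smul_def, mul_one] at hc
  have hc' : (c 0 : K) + (c 1 : K) * (y l / Pool.Agent.W602.GT.lin ls y) +
      (c 2 : K) * (y s / Pool.Agent.W602.GT.lin ls y) = 0 := hc
  have h2 : c 2 = 0 := by
    by_contra h2
    have h2' : (c 2 : K) ≠ 0 := by exact_mod_cast h2
    apply hcon (-(c 0) / c 2) (-(c 1) / c 2)
    push_cast
    rw [eq_comm]
    have h3 : (c 2 : K) * ((-(c 0 : K) / c 2) + y l / Pool.Agent.W602.GT.lin ls y *
        (-(c 1 : K) / c 2)) = (c 2 : K) * (y s / Pool.Agent.W602.GT.lin ls y) := by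
      rw [mul_add, mul_div_cancel₀ _ h2', mul_left_comm, mul_div_cancel₀ _ h2']
      linear_combination -hc'
    exact mul_left_cancel₀ h2' h3
  have h1 : c 1 = 0 := by
    by_contra h1
    have h1' : (c 1 : K) ≠ 0 := by exact_mod_cast h1
    apply hl
    have h3 : y l / Pool.Agent.W602.GT.lin ls y = ((-(c 0) / c 1 : E) : K) := by
      push_cast
      rw [eq_div_iff h1']
      rw [h2] at hc'
      simp only [ZeroMemClass.coe_zero, zero_mul, add_zero] at hc'
      linear_combination hc'
    rw [h3]
    exact SetLike.coe_mem _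
  have h0 : c 0 = 0 := by
    rw [h1, h2] at hc'
    simp only [ZeroMemClass.coe_zero, zero_mul, add_zero] at hc'
    exact_mod_cast hc'
  intro i
  fin_cases i
  · exact h0
  · exact h1
  · exact h2

/-- **Lines.** -/
theorem line_in {ls : Fin (n + 1) → F} (_hls : Pool.Agent.W602.GT.lin ls y ≠ 0) {l : Fin (n + 1)}
    (htr : Transcendental E (y l / Pool.Agent.W602.GT.lin ls y)) {u w : Fin (n + 1) → E}
    (huw : ∀ s, y s / Pool.Agent.W602.GT.lin ls y =
      u s + y l / Pool.Agent.W602.GT.lin ls y * w s) [CharZero K]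
    {G : MvPolynomial (Fin (n + 1)) F} (hG : IsForm G) (hy : aeval y G = 0) (c c' : K) :
    aeval (fun s => c * (u s : K) + c' * (w s : K)) G = 0 := by
  obtain ⟨p, hp⟩ := LS.exists_poly (k := F) u w G
  obtain ⟨d, hd⟩ := hG
  have h1 := hp K (y l / Pool.Agent.W602.GT.lin ls y)
  have h2 : Pool.Agent.W602.GT.val (fun i => algebraMap E K (u i) +
      y l / Pool.Agent.W602.GT.lin ls y * algebraMap E K (w i)) G = 0 := by
    have h3 := aeval_scale hd y (Pool.Agent.W602.GT.lin ls y)⁻¹
    rw [hy, mul_zero] at h3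
    unfold Pool.Agent.W602.GT.val
    rw [← h3]
    congr 2
    funext s
    have h4 := huw s
    rw [div_eq_inv_mul] at h4
    exact h4.symm
  rw [h2] at h1
  have hp0 : p = 0 := by
    by_contra hne
    exact htr ⟨p, hne, h1⟩
  have h3 := LS.line_zero (k := F) (K := K) ⟨d, hd⟩ (fun i => (u i : K)) (fun i => (w i : K)) (by
      have : {T : K | Pool.Agent.W602.GT.val (fun i => (u i : K) + T * (w i : K)) G = 0} =
          Set.univ := by
        refine Set.eq_univ_of_forall fun T => ?_
        have h4 := hp K T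
        rw [hp0, map_zero] at h4
        exact h4.symm
      rw [this]
      exact Set.infinite_univ) c c'
  exact h3

end Pool.Agent.T6.H20.FV
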