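import Pool.Agent.T6.H20.FV.Dich

/-!
Vojta's height inequality for all points outside of the one-dimensional orbits of tori.
-/

set_option autoImplicit false

open FF MvPolynomial Pool.Agent.W603.LV Pool.Agent.W603.PV Pool.Agent.W602.GT
open Pool.Agent.R869.Wd (cut PtL VojtaV Vojta charZero_ext)

namespace Pool.Agent.T6.H20.FV

variable {F : Type} [Field F] {n : ℕ} {ι κ : Type}

/-- The orbit of the point `f` under some diagonal one-parameter group is not a point and is contained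
in `X`. -/
def OnOrbit {F : Type} [Field F] {n : ℕ} {κ : Type} (U : Set (Fin (n + 1)))
    (Φ : κ → MvPolynomial (Fin (n + 1)) F) (L : Type) [Field L] [Algebra F L]
    (f : Fin (n + 1) → L) : Prop :=
  ∃ b : Fin (n + 1) → ℤ, (∃ i i', f i ≠ 0 ∧ f i' ≠ 0 ∧ b i ≠ b i') ∧
    ∀ t : L, t ≠ 0 → PtL U Φ L fun j => t ^ b j * f j

theorem add_bound {x m r : ℤ} {A B : ℕ} (h : x ≤ A * m + B * r) (hm : 0 ≤ m) (hr : 0 ≤ r)
    {A' B' : ℕ} (hA : A ≤ A') (hB : B ≤ B') : x ≤ A' * m + B' * r := by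
  have h1 : (A : ℤ) * m ≤ A' * m := mul_le_mul_of_nonneg_right (by exact_mod_cast hA) hm
  have h2 : (B : ℤ) * r ≤ B' * r := mul_le_mul_of_nonneg_right (by exact_mod_cast hB) hr
  linarith

theorem genI_sup {L : Type} [Field L] [Algebra F L] {f : Fin (n + 1) → L}
    {I : Ideal (MvPolynomial (Fin (n + 1)) F)} (hI : I ≤ genI F f)
    {G : MvPolynomial (Fin (n + 1)) F} (hG : G ∈ genI F f) : I ⊔ Ideal.span {G} ≤ genI F f :=
  sup_le hI (by rw [Ideal.span_singleton_le_iff_mem]; exact hG)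

theorem lt_sup {I : Ideal (MvPolynomial (Fin (n + 1)) F)} {G : MvPolynomial (Fin (n + 1)) F}
    (hG : G ∉ I) : I < I ⊔ Ideal.span {G} := by
  refine lt_of_le_of_ne le_sup_left fun h => hG ?_
  rw [h]
  exact Ideal.mem_sup_right (Ideal.mem_span_singleton_self G)

/-- **All points.** -/
theorem points {k : Type} [Field k] [IsAlgClosed k] [CharZero k] [Algebra k F] [IsFF k F]
    [Finite ι] (U : Finset (Fin (n + 1))) (Fs : ι → MvPolynomial (Fin (n + 1)) F)
    (hF : ∀ i, IsForm (Fs i)) (hC : ∀ i, HighPowers U (Fs i).support)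
    (hnt : TS.NoTorusSurface (U : Set (Fin (n + 1)))
      fun i => map (algebraMap F (AlgebraicClosure F)) (Fs i))
    {Φ : κ → MvPolynomial (Fin (n + 1)) F} (hΦ : ∀ e, IsForm (Φ e))
    (hsub : Sub (U : Set (Fin (n + 1))) Φ Fs)
    (I : Ideal (MvPolynomial (Fin (n + 1)) F)) (hI : ∀ e, Φ e ∈ I) :
    ∃ A B : ℕ, ∀ (L : Type) [Field L] [Algebra k L] [Algebra F L] [IsScalarTower k F L]
      [FiniteDimensional F L] (f : Fin (n + 1) → L), f ≠ 0 → (∀ j ∈ U, f j ≠ 0) →
        I ≤ genI F f → OnOrbit (U : Set (Fin (n + 1))) Φ L f ∨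
        pht k f ≤ A * max (canDeg k L + (cut k (U : Set (Fin (n + 1))) f).ncard) 0 +
          B * Module.finrank F L := by
  induction I using WellFoundedGT.induction with
  | ind I ih =>
  -- a larger ideal with all the points
  have key : ∀ G : MvPolynomial (Fin (n + 1)) F, G ∉ I →
      ∃ A B : ℕ, ∀ (L : Type) [Field L] [Algebra k L] [Algebra F L] [IsScalarTower k F L]
        [FiniteDimensional F L] (f : Fin (n + 1) → L), f ≠ 0 → (∀ j ∈ U, f j ≠ 0) →
        I ≤ genI F f → G ∈ genI F f → OnOrbit (U : Set (Fin (n + 1))) Φ L f ∨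
        pht k f ≤ A * max (canDeg k L + (cut k (U : Set (Fin (n + 1))) f).ncard) 0 +
          B * Module.finrank F L := by
    intro G hG
    obtain ⟨A, B, h⟩ := ih _ (lt_sup hG) fun e => Ideal.mem_sup_left (hI e)
    exact ⟨A, B, fun L _ _ _ _ _ f hf hfU hfI hfG => h L f hf hfU (genI_sup hfI hfG)⟩
  by_cases hhom : IsHomog I
  swap
  · unfold IsHomog at hhom
    push Not at hhom
    obtain ⟨H, hH, d, hHd⟩ := hhom
    obtain ⟨A, B, h⟩ := key _ hHd
    exact ⟨A, B, fun L _ _ _ _ _ f hf hfU hfI => h L f hf hfU hfI (genI_homog f H (hfI hH) d)⟩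
  by_cases hprime : I.IsPrime
  swap
  · rw [Ideal.isPrime_iff] at hprime
    by_cases htop : I = ⊤
    · refine ⟨0, 0, fun L _ _ _ _ _ f hf hfU hfI => ?_⟩
      exact absurd (hfI (htop ▸ Submodule.mem_top : (1 : MvPolynomial (Fin (n + 1)) F) ∈ I))
        ((Ideal.ne_top_iff_one _).1 (genI_prime f).ne_top)
    · push Not at hprime
      obtain ⟨a, b, hab, ha, hb⟩ := hprime htop
      obtain ⟨A, B, h⟩ := key _ ha
      obtain ⟨A', B', h'⟩ := key _ hb
      refine ⟨max A A', max B B', fun L _ _ _ _ _ f hf hfU hfI => ?_⟩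
      rcases (genI_prime f).mem_or_mem (hfI hab) with h1 | h1
      · rcases h L f hf hfU hfI h1 with h2 | h2
        · exact Or.inl h2
        · exact Or.inr (add_bound h2 (le_max_right _ _) (Nat.cast_nonneg _) (le_max_left _ _)
            (le_max_left _ _))
      · rcases h' L f hf hfU hfI h1 with h2 | h2
        · exact Or.inl h2
        · exact Or.inr (add_bound h2 (le_max_right _ _) (Nat.cast_nonneg _) (le_max_right _ _)
            (le_max_right _ _))
  by_cases hU : ∃ j ∈ U, X j ∈ I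
  · obtain ⟨j, hj, hjI⟩ := hU
    exact ⟨0, 0, fun L _ _ _ _ _ f hf hfU hfI => absurd (X_mem_genI.1 (hfI hjI)) (hfU j hj)⟩
  push Not at hU
  by_cases hx : ∃ j, X j ∉ I
  swap
  · push Not at hx
    exact ⟨0, 0, fun L _ _ _ _ _ f hf hfU hfI =>
      absurd (funext fun j => X_mem_genI.1 (hfI (hx j))) hf⟩
  by_cases hst : ∀ b : Fin (n + 1) → ℤ, Stable I b → ∀ j l, X j ∉ I → X l ∉ I → b j = b l
  · obtain ⟨d, G, hGd, hG, A, B, h⟩ := sub_vojta (k := k) U Fs hF hC hnt hsub hhom hI hU hx hst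
    obtain ⟨A', B', h'⟩ := key _ hG
    refine ⟨max A A', max B B', fun L _ _ _ _ _ f hf hfU hfI => ?_⟩
    by_cases hfG : aeval f G = 0
    · rcases h' L f hf hfU hfI ((form_mem_genI ⟨d, hGd⟩).2 hfG) with h2 | h2
      · exact Or.inl h2
      · exact Or.inr (add_bound h2 (le_max_right _ _) (Nat.cast_nonneg _) (le_max_right _ _)
            (le_max_right _ _))
    · right
      have h3 := h L f hfI hfG hfU
      have h4 : (A : ℤ) * (canDeg k L + (cut k (U : Set (Fin (n + 1))) f).ncard) ≤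
          A * max (canDeg k L + (cut k (U : Set (Fin (n + 1))) f).ncard) 0 :=
        mul_le_mul_of_nonneg_left (le_max_left _ _) (Nat.cast_nonneg _)
      exact add_bound (h3.trans (by linarith)) (le_max_right _ _) (Nat.cast_nonneg _)
        (le_max_left _ _) (le_max_left _ _)
  · push Not at hst
    obtain ⟨b, hb, i, i', hi, hi', hne⟩ := hst
    have hii : X i * X i' ∉ I := fun h0 => (hprime.mem_or_mem h0).elim hi hi'
    obtain ⟨A, B, h⟩ := key _ hii
    refine ⟨A, B, fun L _ _ _ _ _ f hf hfU hfI => ?_⟩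
    by_cases hfi : f i = 0 ∨ f i' = 0
    · refine h L f hf hfU hfI ?_
      rcases hfi with h1 | h1
      · exact Ideal.mul_mem_right _ _ (X_mem_genI.2 h1)
      · exact Ideal.mul_mem_left _ _ (X_mem_genI.2 h1)
    · push Not at hfi
      refine Or.inl ⟨b, ⟨i, i', hfi.1, hfi.2, hne⟩, fun t ht => ⟨?_, ?_, fun e => ?_⟩⟩
      · intro h0
        exact mul_ne_zero (zpow_ne_zero _ ht) hfi.1 (congrFun h0 i)
      · exact fun j hj => mul_ne_zero (zpow_ne_zero _ ht) (hfU j hj)
      · refine val_orbit (L := L) f b ht (Φ e) fun v => ?_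
        have h1 := hfI (hb _ (hI e) v)
        rw [← wc_eq_comp, form_mem_genI (wc_form (hΦ e) b v)] at h1
        exact h1

end Pool.Agent.T6.H20.FV
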