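import Pool.Agent.T6.H20.FV.Conv
import Pool.Agent.T6.H20.FV.Gen
import Mathlib

/-!
Specialisation of lines to arbitrary points.
-/

set_option autoImplicit false

open FF Filter MvPolynomial Pool.Agent.W603.LV Pool.Agent.W603.PV Pool.Agent.W602.GT
  Pool.Agent.W603.CZ

namespace Pool.Agent.T6.H20.FV

variable {F : Type} [Field F] {n : ℕ}

/-- an identity on a line over an infinite subfield is an identity over every extension -/
theorem line_ident {E Ω : Type} [Field E] [Infinite E] [Field Ω] [Algebra E Ω] [Algebra F Ω]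
    (f v : Fin (n + 1) → Ω) (H : MvPolynomial (Fin (n + 1)) F) (c a : Ω) (q : ℕ)
    (h : ∀ s t : E, aeval (fun l => algebraMap E Ω s * f l + algebraMap E Ω t * v l) H =
      c * (algebraMap E Ω s + a * algebraMap E Ω t) ^ q) (s t : Ω) :
    aeval (fun l => s * f l + t * v l) H = c * (s + a * t) ^ q := by
  classical
  let φ : MvPolynomial (Fin (n + 1)) F →ₐ[F] MvPolynomial (Fin 2) Ω :=
    aeval fun l => C (f l) * X 0 + C (v l) * X 1
  have hev : ∀ (x : Fin 2 → Ω) (H : MvPolynomial (Fin (n + 1)) F),
      eval x (φ H) = aeval (fun l => x 0 * f l + x 1 * v l) H := by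
    intro x H
    induction H using MvPolynomial.induction_on with
    | C a =>
      simp only [φ, aeval_C]
      rw [MvPolynomial.algebraMap_apply, eval_C]
    | add p q hp hq => rw [map_add, map_add, map_add, hp, hq]
    | mul_X p s hp =>
      rw [map_mul, map_mul, map_mul, hp]
      congr 1
      simp only [φ, aeval_X, map_add, map_mul, eval_C, eval_X]
      ring
  have h1 : φ H = C c * (X 0 + C a * X 1) ^ q := by
    apply MvPolynomial.funext_set (fun _ : Fin 2 => Set.range (algebraMap E Ω))
      (fun _ => Set.infinite_range_of_injective (algebraMap E Ω).injective)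
    intro x hx
    obtain ⟨s, hs⟩ := hx 0 (Set.mem_univ _)
    obtain ⟨t, ht⟩ := hx 1 (Set.mem_univ _)
    rw [hev, ← hs, ← ht, h s t]
    simp only [map_mul, map_pow, map_add, eval_C, eval_X]
    rw [← hs, ← ht]
  have h2 := hev ![s, t] H
  rw [h1] at h2
  simp only [map_mul, map_pow, map_add, eval_C, eval_X, Matrix.cons_val_zero,
    Matrix.cons_val_one] at h2
  exact h2.symm

/-- **A valuation ring centred at a point.** -/
theorem residue_point {p : Ideal (MvPolynomial (Fin (n + 1)) F)} {K : Type} [Field K] [Algebra F K]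
    {y : Fin (n + 1) → K} (hy : ∀ H, aeval y H = 0 → H ∈ p)
    {L : Type} [Field L] [Algebra F L] [Algebra.IsAlgebraic F L] (f : Fin (n + 1) → L)
    (hfp : ∀ H ∈ p, aeval f H = 0) :
    ∃ (A : ValuationSubring K) (Ω : Type) (_ : Field Ω) (_ : Algebra F Ω) (_ : Algebra L Ω)
      (_ : IsScalarTower F L Ω) (_ : Algebra F A) (_ : IsScalarTower F A K)
      (ρ : A →ₐ[F] Ω) (y' : Fin (n + 1) → A), (∀ a : A, ρ a ≠ 0 → IsUnit a) ∧
      (∀ i, algebraMap A K (y' i) = y i) ∧ ∀ i, ρ (y' i) = algebraMap L Ω (f i) := by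
  classical
  let P : Ideal (MvPolynomial (Fin (n + 1)) F) :=
    RingHom.ker (aeval f : MvPolynomial (Fin (n + 1)) F →ₐ[F] L)
  have hP : P.IsPrime := RingHom.ker_isPrime _
  let S := Localization.AtPrime P
  have hyu : ∀ H : P.primeCompl, IsUnit ((aeval y : MvPolynomial (Fin (n + 1)) F →ₐ[F] K) H) := by
    intro H
    refine isUnit_iff_ne_zero.2 fun h0 => H.2 ?_
    exact RingHom.mem_ker.2 (hfp _ (hy _ h0))
  have hfu : ∀ H : P.primeCompl, IsUnit ((aeval f : MvPolynomial (Fin (n + 1)) F →ₐ[F] L) H) := by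
    intro H
    refine isUnit_iff_ne_zero.2 fun h0 => H.2 ?_
    exact RingHom.mem_ker.2 h0
  let g : S →+* K := IsLocalization.lift (M := P.primeCompl)
    (g := (aeval y : MvPolynomial (Fin (n + 1)) F →ₐ[F] K).toRingHom) hyu
  let h : S →+* L := IsLocalization.lift (M := P.primeCompl)
    (g := (aeval f : MvPolynomial (Fin (n + 1)) F →ₐ[F] L).toRingHom) hfu
  have hg : ∀ H, g (algebraMap _ S H) = aeval y H := fun H => IsLocalization.lift_eq hyu H
  have hh : ∀ H, h (algebraMap _ S H) = aeval f H := fun H => IsLocalization.lift_eq hfu H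
  have hloc : IsLocalHom h := by
    refine ⟨fun x hx => ?_⟩
    obtain ⟨⟨r, s⟩, hrs⟩ := IsLocalization.surj P.primeCompl x
    have h1 : h x * aeval f s.1 = aeval f r := by
      rw [← hh, ← hh, ← map_mul, hrs]
    have h2 : r ∈ P.primeCompl := by
      intro h0
      have h3 : aeval f r = 0 := RingHom.mem_ker.1 h0
      rw [h3] at h1
      exact (mul_ne_zero hx.ne_zero (hfu s).ne_zero) h1
    have h3 : IsUnit (x * algebraMap _ S s.1) := by
      rw [hrs]
      exact IsLocalization.map_units S (⟨r, h2⟩ : P.primeCompl)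
    exact isUnit_of_mul_isUnit_left h3
  obtain ⟨A, hA, hAloc⟩ := IsLocalRing.exists_factor_valuationRing g
  let g' : S →+* A := g.codRestrict A.toSubring hA
  have hg' : IsLocalHom g' := hAloc
  have hg'c : ∀ x, algebraMap A K (g' x) = g x := fun x => rfl
  let kA := IsLocalRing.ResidueField A
  let κ := IsLocalRing.ResidueField S
  let α : κ →+* kA := IsLocalRing.ResidueField.map g'
  let β : κ →+* L := IsLocalRing.ResidueField.lift h
  have hβ : ∀ x, β (IsLocalRing.residue S x) = h x :=
    fun x => IsLocalRing.ResidueField.lift_residue_apply h x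
  have hα : ∀ x, α (IsLocalRing.residue S x) = IsLocalRing.residue A (g' x) :=
    fun x => IsLocalRing.ResidueField.map_residue g' x
  obtain ⟨Ω, iΩ, iΩ2, iΩ3⟩ : ∃ (Ω : Type) (_ : Field Ω) (_ : Algebra kA Ω), IsAlgClosed Ω :=
    ⟨AlgebraicClosure kA, inferInstance, inferInstance, inferInstance⟩
  letI : Algebra κ L := β.toAlgebra
  letI : Algebra κ Ω := ((algebraMap kA Ω).comp α).toAlgebra
  haveI : IsScalarTower F κ L := IsScalarTower.of_algebraMap_eq fun a => by
    have h1 : algebraMap F κ a = IsLocalRing.residue S (algebraMap (MvPolynomial (Fin (n + 1)) F) S (C a)) := rfl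
    rw [h1]
    change algebraMap F L a = β _
    rw [hβ, hh, aeval_C]
  haveI : Algebra.IsAlgebraic κ L := Algebra.IsAlgebraic.tower_top (K := F) κ
  let ψ : L →ₐ[κ] Ω := IsAlgClosed.lift
  letI aLΩ : Algebra L Ω := ψ.toRingHom.toAlgebra
  letI aFΩ : Algebra F Ω := (ψ.toRingHom.comp (algebraMap F L)).toAlgebra
  letI aFA : Algebra F A := (g'.comp ((algebraMap (MvPolynomial (Fin (n + 1)) F) S).comp C)).toAlgebra
  have hFL : IsScalarTower F L Ω := IsScalarTower.of_algebraMap_eq fun a => rfl
  have hFK : IsScalarTower F A K := IsScalarTower.of_algebraMap_eq fun a => by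
    change algebraMap F K a = algebraMap A K (g' (algebraMap (MvPolynomial (Fin (n + 1)) F) S (C a)))
    rw [hg'c, hg, aeval_C]
  -- the square
  have hsq : ∀ H : MvPolynomial (Fin (n + 1)) F,
      algebraMap kA Ω (IsLocalRing.residue A (g' (algebraMap _ S H))) = ψ (aeval f H) := by
    intro H
    have h1 : algebraMap κ Ω (IsLocalRing.residue S (algebraMap _ S H)) =
        algebraMap kA Ω (IsLocalRing.residue A (g' (algebraMap _ S H))) := by
      change algebraMap kA Ω (α _) = _
      rw [hα]
    rw [← h1, ← ψ.commutes]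
    congr 1
    change β _ = _
    rw [hβ, hh]
  let ρ : A →ₐ[F] Ω := { (algebraMap kA Ω).comp (IsLocalRing.residue A) with
    commutes' := fun a => by
      change algebraMap kA Ω (IsLocalRing.residue A
        (g' (algebraMap (MvPolynomial (Fin (n + 1)) F) S (C a)))) =
        ψ (algebraMap F L a)
      rw [hsq, aeval_C] }
  refine ⟨A, Ω, iΩ, aFΩ, aLΩ, hFL, aFA, hFK, ρ, fun i => g' (algebraMap (MvPolynomial (Fin (n + 1)) F) S (X i)),
    fun a ha => ?_, fun i => ?_, fun i => ?_⟩
  · by_contra hcon
    apply ha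
    have h1 : IsLocalRing.residue A a = 0 := (IsLocalRing.residue_eq_zero_iff a).2
      ((IsLocalRing.mem_maximalIdeal a).2 hcon)
    change algebraMap kA Ω (IsLocalRing.residue A a) = 0
    rw [h1, map_zero]
  · rw [hg'c, hg, aeval_X]
  · change algebraMap kA Ω (IsLocalRing.residue A
      (g' (algebraMap (MvPolynomial (Fin (n + 1)) F) S (X i)))) = ψ (f i)
    rw [hsq, aeval_X]


section point

variable {κ : Type}

theorem aeval_comp {A B : Type} [CommRing A] [CommRing B] [Algebra F A] [Algebra F B]
    (φ : A →ₐ[F] B) (z : Fin (n + 1) → A) (H : MvPolynomial (Fin (n + 1)) F) :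
    φ (aeval z H) = aeval (fun l => φ (z l)) H := by
  rw [MvPolynomial.comp_aeval_apply]

/-- **A line through a point.** -/
theorem line_at_point [CharZero F] {p : Ideal (MvPolynomial (Fin (n + 1)) F)} (hom : IsHomog p)
    {Q : κ → MvPolynomial (Fin (n + 1)) F} {q : κ → ℕ} (hQhom : ∀ j, (Q j).IsHomogeneous (q j))
    (hq : ∀ j, 0 < q j) (hline : HasPuncturedLine p Q q) {L : Type} [Field L] [Algebra F L]
    [Algebra.IsAlgebraic F L] (f : Fin (n + 1) → L) (hf : ∃ l, f l ≠ 0)
    (hfp : ∀ H ∈ p, aeval f H = 0) (hfQ : ∀ j, aeval f (Q j) ≠ 0) :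
    ∃ (Ω : Type) (_ : Field Ω) (_ : Algebra F Ω) (_ : Algebra L Ω) (_ : IsScalarTower F L Ω)
      (v : Fin (n + 1) → Ω) (T : Set κ),
      (∃ i j, algebraMap L Ω (f i) * v j - algebraMap L Ω (f j) * v i ≠ 0) ∧
      ∀ s t : Ω, (∀ H ∈ p, aeval (fun l => s * algebraMap L Ω (f l) + t * v l) H = 0) ∧
        ∀ j, (j ∈ T → aeval (fun l => s * algebraMap L Ω (f l) + t * v l) (Q j) =
            algebraMap L Ω (aeval f (Q j)) * (s + t) ^ q j) ∧
          (j ∉ T → aeval (fun l => s * algebraMap L Ω (f l) + t * v l) (Q j) =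
            algebraMap L Ω (aeval f (Q j)) * s ^ q j) := by
  classical
  obtain ⟨K, _, _, y, v, T, hy0, hy1, ⟨i, j, hij⟩, hl⟩ := hline
  have hcK : CharZero K := charZero_of_injective_algebraMap (algebraMap F K).injective
  set u : RatFunc K := RatFunc.X with hu
  have hu0 : u ≠ 0 := RatFunc.X_ne_zero
  let e := algebraMap K (RatFunc K)
  set y' : Fin (n + 1) → RatFunc K := fun l => u * e (y l) with hy'
  set v' : Fin (n + 1) → RatFunc K := fun l => u * e (v l) with hv'
  have hker : ∀ H, aeval y' H = 0 → H ∈ p := by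
    intro H hH
    have h1 : H ∈ genI F y := RingHom.mem_ker.2 hH
    rw [mem_genI] at h1
    rw [← sum_homogeneousComponent H]
    refine sum_mem fun d _ => ?_
    by_contra hcon
    exact hy1 d _ (homogeneousComponent_isHomogeneous d H) hcon (h1 d)
  -- the line over the large field
  have hcomb : ∀ s t : K, (fun l => e s * y' l + e t * v' l) = fun l => u * e (s * y l + t * v l) := by
    intro s t
    funext l
    simp only [hy', hv', map_add, map_mul]
    ring
  have hline0 : ∀ H ∈ p, ∀ s t : RatFunc K, aeval (fun l => s * y' l + t * v' l) H = 0 := by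
    intro H hH s t
    have h1 := line_ident (E := K) (F := F) y' v' H 0 0 1 (fun s t => ?_) s t
    · rwa [zero_mul] at h1
    · rw [zero_mul]
      change aeval (fun l => e s * y' l + e t * v' l) H = 0
      rw [hcomb s t]
      have h2 : H ∈ genI F (fun l => s * y l + t * v l) := by
        rw [mem_genI]
        intro d
        exact (hl s t).1 _ (hom H hH d)
      exact RingHom.mem_ker.1 h2
  have hQu : ∀ (j : κ) (z : Fin (n + 1) → K), aeval (fun l => u * e (z l)) (Q j) =
      u ^ q j * e (aeval z (Q j)) := by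
    intro j z
    have h1 := aeval_scale (hQhom j) (fun l => e (z l)) u
    rw [h1]
    congr 1
    exact aeval_algebraMap_apply (RatFunc K) z (Q j)
  have hlineT : ∀ j ∈ T, ∀ s t : RatFunc K, aeval (fun l => s * y' l + t * v' l) (Q j) =
      aeval y' (Q j) * (s + t) ^ q j := by
    intro j hj s t
    have h1 := line_ident (E := K) (F := F) y' v' (Q j) (aeval y' (Q j)) 1 (q j) (fun s t => ?_) s t
    · rwa [one_mul] at h1
    · change aeval (fun l => e s * y' l + e t * v' l) (Q j) = _ * (e s + 1 * e t) ^ q j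
      rw [hcomb s t, hQu, ((hl s t).2 j).1 hj, hy', hQu, map_mul, map_pow, map_add, one_mul]
      ring
  have hlineT' : ∀ j, j ∉ T → ∀ s t : RatFunc K, aeval (fun l => s * y' l + t * v' l) (Q j) =
      aeval y' (Q j) * s ^ q j := by
    intro j hj s t
    have h1 := line_ident (E := K) (F := F) y' v' (Q j) (aeval y' (Q j)) 0 (q j) (fun s t => ?_) s t
    · rwa [zero_mul, add_zero] at h1
    · change aeval (fun l => e s * y' l + e t * v' l) (Q j) = _ * (e s + 0 * e t) ^ q j
      rw [hcomb s t, hQu, ((hl s t).2 j).2 hj, hy', hQu, map_mul, map_pow, zero_mul, add_zero]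
      ring
  obtain ⟨A, Ω, _, _, _, hT1, _, hT2, ρ, yA, hunit, hyA, hρ⟩ := residue_point hker f hfp
  have hinjA : Function.Injective (algebraMap A (RatFunc K)) := Subtype.val_injective
  obtain ⟨l, hl0⟩ := hf
  have hyl : y' l ≠ 0 := by
    intro h0
    apply hl0
    have h1 : yA l = 0 := by
      apply hinjA
      rw [hyA, h0, map_zero]
    have h2 := hρ l
    rw [h1, map_zero] at h2
    exact (map_eq_zero _).1 h2.symm
  set lam : RatFunc K := v' l / y' l with hlam
  set w' : Fin (n + 1) → RatFunc K := fun i => v' i - lam * y' i with hw'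
  have hw'l : w' l = 0 := by
    simp only [hw', hlam]
    field_simp
    ring
  have hex : ∃ i0, w' i0 ≠ 0 := by
    by_contra hcon
    push Not at hcon
    apply hij
    have h1 : ∀ i, e (v i) = lam * e (y i) := by
      intro i
      have h2 := hcon i
      simp only [hw', hv', hy'] at h2
      have h3 : u * (e (v i) - lam * e (y i)) = 0 := by linear_combination h2
      exact sub_eq_zero.1 ((mul_eq_zero.1 h3).resolve_left hu0)
    apply e.injective
    rw [map_zero, map_sub, map_mul, map_mul, h1 i, h1 j]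
    ring
  obtain ⟨i0, hi0⟩ := Finite.exists_max fun i => A.valuation (w' i)
  have hc : w' i0 ≠ 0 := by
    intro h0
    obtain ⟨i1, hi1⟩ := hex
    have h1 := hi0 i1
    simp only [h0, map_zero, le_zero_iff] at h1
    exact hi1 ((map_eq_zero _).1 h1)
  set c := w' i0 with hcdef
  have hmem : ∀ i, w' i / c ∈ A := by
    intro i
    rw [← A.valuation_le_one_iff, map_div₀]
    exact div_le_one_of_le₀ (hi0 i) zero_le
  let wA : Fin (n + 1) → A := fun i => ⟨w' i / c, hmem i⟩
  have hwA : ∀ i, algebraMap A (RatFunc K) (wA i) = w' i / c := fun i => rfl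
  have hcomb2 : ∀ s t : RatFunc K, (fun i => s * y' i + t * (w' i / c)) =
      fun i => (s - t * lam / c) * y' i + (t / c) * v' i := by
    intro s t
    funext i
    simp only [hw']
    field_simp
    ring
  -- integrality
  have hQA : ∀ z : Fin (n + 1) → A, ∀ H : MvPolynomial (Fin (n + 1)) F,
      algebraMap A (RatFunc K) (aeval z H) =
        aeval (fun i => algebraMap A (RatFunc K) (z i)) H := fun z H =>
    (aeval_algebraMap_apply (RatFunc K) z H).symm
  have hint : ∀ (j : κ) (a : RatFunc K), aeval (fun i => w' i / c) (Q j) =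
      aeval y' (Q j) * a ^ q j → a ∈ A := by
    intro j a ha
    have h1 : IsUnit (aeval yA (Q j)) := by
      apply hunit
      rw [aeval_comp]
      simp only [hρ]
      have h0 : aeval (fun l => algebraMap L Ω (f l)) (Q j) = algebraMap L Ω (aeval f (Q j)) :=
        aeval_algebraMap_apply Ω f (Q j)
      rw [h0]
      exact (map_ne_zero _).2 (hfQ j)
    have h2 : aeval y' (Q j) = algebraMap A (RatFunc K) (aeval yA (Q j)) := by
      rw [hQA]
      simp only [hyA]
    have h3 : A.valuation (aeval y' (Q j)) = 1 := by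
      rw [h2]
      obtain ⟨b, hb⟩ := h1
      rw [← hb]
      exact A.valuation_unit b
    have h4 : A.valuation (aeval (fun i => w' i / c) (Q j)) ≤ 1 := by
      rw [A.valuation_le_one_iff]
      have h5 : aeval (fun i => w' i / c) (Q j) = algebraMap A (RatFunc K) (aeval wA (Q j)) :=
        (hQA wA (Q j)).symm
      rw [h5]
      exact (aeval wA (Q j)).2
    rw [ha, map_mul, h3, one_mul, map_pow] at h4
    rw [← A.valuation_le_one_iff]
    exact (pow_le_one_iff (hq j).ne').1 h4
  have hintT : ∀ j ∈ T, (1 - lam) / c ∈ A := by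
    intro j hj
    apply hint j
    have h1 := hlineT j hj (0 - 1 * lam / c) (1 / c)
    rw [← hcomb2 0 1] at h1
    simp only [zero_mul, one_mul, zero_add] at h1
    rw [h1]
    congr 2
    ring
  have hintT' : ∀ j, j ∉ T → (-lam) / c ∈ A := by
    intro j hj
    apply hint j
    have h1 := hlineT' j hj (0 - 1 * lam / c) (1 / c)
    rw [← hcomb2 0 1] at h1
    simp only [zero_mul, one_mul, zero_add] at h1
    rw [h1]
    congr 2
    ring
  obtain ⟨α, hα⟩ : ∃ α : A, ∀ j ∈ T, algebraMap A (RatFunc K) α = (1 - lam) / c := by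
    by_cases h : ∃ j, j ∈ T
    · obtain ⟨j, hj⟩ := h
      exact ⟨⟨_, hintT j hj⟩, fun _ _ => rfl⟩
    · push Not at h
      exact ⟨0, fun j hj => absurd hj (h j)⟩
  obtain ⟨β, hβ⟩ : ∃ β : A, ∀ j, j ∉ T → algebraMap A (RatFunc K) β = (-lam) / c := by
    by_cases h : ∃ j, j ∉ T
    · obtain ⟨j, hj⟩ := h
      exact ⟨⟨_, hintT' j hj⟩, fun _ _ => rfl⟩
    · push Not at h
      exact ⟨0, fun j hj => absurd (h j) hj⟩
  -- the line over the residue field
  set f' : Fin (n + 1) → Ω := fun i => algebraMap L Ω (f i) with hf'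
  set w : Fin (n + 1) → Ω := fun i => ρ (wA i) with hw
  have hf'Q : ∀ j, aeval f' (Q j) = algebraMap L Ω (aeval f (Q j)) := fun j =>
    aeval_algebraMap_apply Ω f (Q j)
  have hred : ∀ (s t : F) (H : MvPolynomial (Fin (n + 1)) F),
      aeval (fun i => algebraMap F Ω s * f' i + algebraMap F Ω t * w i) H =
        ρ (aeval (fun i => algebraMap F A s * yA i + algebraMap F A t * wA i) H) := by
    intro s t H
    rw [aeval_comp]
    congr 2
    funext i
    rw [map_add, map_mul, map_mul, ρ.commutes, ρ.commutes, hρ]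
  have hA0 : ∀ (s t : F) (H : MvPolynomial (Fin (n + 1)) F),
      algebraMap A (RatFunc K) (aeval (fun i => algebraMap F A s * yA i +
        algebraMap F A t * wA i) H) = aeval (fun i => algebraMap F (RatFunc K) s * y' i +
        algebraMap F (RatFunc K) t * (w' i / c)) H := by
    intro s t H
    rw [hQA]
    congr 2
    funext i
    rw [map_add, map_mul, map_mul, hyA, hwA, ← IsScalarTower.algebraMap_apply,
      ← IsScalarTower.algebraMap_apply]
  have hp' : ∀ H ∈ p, ∀ s t : Ω, aeval (fun i => s * f' i + t * w i) H = 0 := by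
    intro H hH s t
    have h1 := line_ident (E := F) (F := F) f' w H 0 0 1 (fun s t => ?_) s t
    · rwa [zero_mul] at h1
    · rw [zero_mul, hred]
      have h2 : aeval (fun i => algebraMap F A s * yA i + algebraMap F A t * wA i) H = 0 := by
        apply hinjA
        rw [hA0, map_zero, hcomb2]
        exact hline0 H hH _ _
      rw [h2, map_zero]
  have hQT : ∀ j ∈ T, ∀ s t : Ω, aeval (fun i => s * f' i + t * w i) (Q j) =
      aeval f' (Q j) * (s + ρ α * t) ^ q j := by
    intro j hj s t
    refine line_ident (E := F) (F := F) f' w (Q j) _ _ _ (fun s t => ?_) s t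
    rw [hred]
    have h2 : aeval (fun i => algebraMap F A s * yA i + algebraMap F A t * wA i) (Q j) =
        aeval yA (Q j) * (algebraMap F A s + α * algebraMap F A t) ^ q j := by
      apply hinjA
      rw [hA0, hcomb2, hlineT j hj, map_mul, map_pow, map_add, map_mul, hα j hj, hQA]
      simp only [hyA]
      rw [← IsScalarTower.algebraMap_apply, ← IsScalarTower.algebraMap_apply]
      congr 2
      ring
    rw [h2, map_mul, map_pow, map_add, map_mul, ρ.commutes, ρ.commutes, aeval_comp]
    simp only [hρ, hf']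
  have hQT' : ∀ j, j ∉ T → ∀ s t : Ω, aeval (fun i => s * f' i + t * w i) (Q j) =
      aeval f' (Q j) * (s + ρ β * t) ^ q j := by
    intro j hj s t
    refine line_ident (E := F) (F := F) f' w (Q j) _ _ _ (fun s t => ?_) s t
    rw [hred]
    have h2 : aeval (fun i => algebraMap F A s * yA i + algebraMap F A t * wA i) (Q j) =
        aeval yA (Q j) * (algebraMap F A s + β * algebraMap F A t) ^ q j := by
      apply hinjA
      rw [hA0, hcomb2, hlineT' j hj, map_mul, map_pow, map_add, map_mul, hβ j hj, hQA]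
      simp only [hyA]
      rw [← IsScalarTower.algebraMap_apply, ← IsScalarTower.algebraMap_apply]
      congr 2
      ring
    rw [h2, map_mul, map_pow, map_add, map_mul, ρ.commutes, ρ.commutes, aeval_comp]
    simp only [hρ, hf']
  have hwi0 : w i0 = 1 := by
    have h1 : wA i0 = 1 := by
      apply hinjA
      rw [hwA, map_one, ← hcdef, div_self hc]
    simp only [hw, h1, map_one]
  have hwl : w l = 0 := by
    have h1 : wA l = 0 := by
      apply hinjA
      rw [hwA, map_zero, hw'l, zero_div]
    simp only [hw, h1, map_zero]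
  have hf'l : f' l ≠ 0 := (map_ne_zero _).2 hl0
  have hind : f' l * w i0 - f' i0 * w l ≠ 0 := by
    rw [hwi0, hwl, mul_one, mul_zero, sub_zero]
    exact hf'l
  by_cases hab : ρ α = ρ β
  · refine ⟨Ω, inferInstance, inferInstance, inferInstance, hT1, fun i => w i - ρ β * f' i, ∅,
      ⟨l, i0, ?_⟩, fun s t => ?_⟩
    · intro h0
      apply hind
      rw [← h0]
      simp only [hf']
      ring
    · have h1 : (fun i => s * algebraMap L Ω (f i) + t * (w i - ρ β * f' i)) =
          fun i => (s - t * ρ β) * f' i + t * w i := by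
        funext i
        simp only [hf']
        ring
      rw [h1]
      refine ⟨fun H hH => hp' H hH _ _, fun j => ⟨fun hj => absurd hj (Set.notMem_empty j),
        fun _ => ?_⟩⟩
      by_cases hj : j ∈ T
      · rw [hQT j hj, hab, hf'Q]
        congr 2
        ring
      · rw [hQT' j hj, hf'Q]
        congr 2
        ring
  · have hab' : ρ α - ρ β ≠ 0 := sub_ne_zero.2 hab
    refine ⟨Ω, inferInstance, inferInstance, inferInstance, hT1,
      fun i => (w i - ρ β * f' i) / (ρ α - ρ β), T, ⟨l, i0, ?_⟩, fun s t => ?_⟩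
    · intro h0
      apply hind
      have h1 : f' l * ((w i0 - ρ β * f' i0) / (ρ α - ρ β)) -
          f' i0 * ((w l - ρ β * f' l) / (ρ α - ρ β)) = 0 := h0
      field_simp at h1
      linear_combination h1
    · have h1 : (fun i => s * algebraMap L Ω (f i) + t * ((w i - ρ β * f' i) / (ρ α - ρ β))) =
          fun i => (s - t * ρ β / (ρ α - ρ β)) * f' i + t / (ρ α - ρ β) * w i := by
        funext i
        simp only [hf']
        field_simp
        ring
      rw [h1]
      refine ⟨fun H hH => hp' H hH _ _, fun j => ⟨fun hj => ?_, fun hj => ?_⟩⟩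
      · rw [hQT j hj, hf'Q]
        congr 2
        field_simp
        ring
      · rw [hQT' j hj, hf'Q]
        congr 2
        field_simp
        ring

end point

end Pool.Agent.T6.H20.FV
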